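import Pool.Agent.Lib.MP_fb3619_al.BS.Iface

/-!
# MP_fb3619_al, board BS, row CK: centralizers and normalizers which are locally finite
Paper: `BS/Paper.md`, 4.
-/

set_option autoImplicit false

universe u

namespace Pool.Agent.FourGp.FF.Bs

open Pool.Agent.FourGp.H47 (Odd' inv_of_sq)
open Pool.Agent.FourGp.H99 (LF)

theorem cen_cj {G : Type u} [Group G] {z s u : G} (hz : z * z = 1)
    (hs : z * s * z = s ∨ z * s * z = s⁻¹) (hu : u * s = s * u) :
    z * u * z * s = s * (z * u * z) := by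
  have c0 : Commute u s := hu
  rcases hs with hs | hs
  · calc z * u * z * s = z * u * z * (z * s * z) := by rw [hs]
      _ = z * u * (z * z) * s * z := by group
      _ = z * (u * s) * z := by rw [hz]; group
      _ = z * s * 1 * u * z := by rw [hu]; group
      _ = z * s * (z * z) * u * z := by rw [hz]
      _ = (z * s * z) * (z * u * z) := by group
      _ = s * (z * u * z) := by rw [hs]
  · have hs' : z * s⁻¹ * z = s := by
      have e : (z * s * z)⁻¹ = z * s⁻¹ * z := by
        rw [mul_inv_rev, mul_inv_rev, inv_of_sq hz]; group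
      rw [← e, hs, inv_inv]
    calc z * u * z * s = z * u * z * (z * s⁻¹ * z) := by rw [hs']
      _ = z * u * (z * z) * s⁻¹ * z := by group
      _ = z * (u * s⁻¹) * z := by rw [hz]; group
      _ = z * s⁻¹ * 1 * u * z := by rw [c0.inv_right.eq]; group
      _ = z * s⁻¹ * (z * z) * u * z := by rw [hz]
      _ = (z * s⁻¹ * z) * (z * u * z) := by group
      _ = s * (z * u * z) := by rw [hs']

theorem cen_inv {G : Type u} [Group G] {K : Subgroup G} {a b c s : G} (h : Fr K a b c)
    (ha : a * s * a = s ∨ a * s * a = s⁻¹) (hb : b * s * b = s ∨ b * s * b = s⁻¹) :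
    VInv a b (K ⊓ Subgroup.centralizer {s}) := by
  constructor
  · intro u hu
    rw [Subgroup.mem_inf, Subgroup.mem_centralizer_singleton_iff] at hu ⊢
    exact ⟨h.cjmem h.aa hu.1, cen_cj h.aa ha hu.2⟩
  · intro u hu
    rw [Subgroup.mem_inf, Subgroup.mem_centralizer_singleton_iff] at hu ⊢
    exact ⟨h.cjmem h.bb hu.1, cen_cj h.bb hb hu.2⟩

/-- CK. -/
theorem ck (hH : HerS.{u}) : CkS.{u} := by
  intro G _ K a b c hM
  obtain ⟨h1, h2⟩ := hH G K a b c hM
  have h := hM.fr
  refine ⟨?_, ?_, ?_⟩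
  · intro e he he1
    obtain ⟨heK, hea, heb⟩ := mem_Fx.1 he
    have ea : a * e * a = e := by rw [← hea, mul_assoc, h.aa, mul_one]
    have eb : b * e * b = e := by rw [← heb, mul_assoc, h.bb, mul_one]
    have hfin : Finite (Subgroup.zpowers e) := by
      obtain ⟨n, hn⟩ := h.odd e heK
      have h3 : IsOfFinOrder e := isOfFinOrder_iff_pow_eq_one.2 ⟨2 * n + 1, by omega, hn⟩
      exact Set.Finite.to_subtype h3.finite_zpowers
    have hcm : ∀ n ∈ Subgroup.zpowers e, ∀ y : G, y * e = e * y → y * n = n * y := by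
      intro n hn y hy
      obtain ⟨k, rfl⟩ := Subgroup.mem_zpowers_iff.1 hn
      have c0 : Commute y e := hy
      exact (c0.zpow_right k).eq
    have hin : ∀ z : G, z * z = 1 → e * z = z * e → ∀ u ∈ Subgroup.zpowers e,
        z * u * z ∈ Subgroup.zpowers e := by
      intro z hz hez u hu
      rw [hcm u hu z hez.symm, mul_assoc, hz, mul_one]
      exact hu
    refine h2 (K ⊓ Subgroup.centralizer {e}) (Subgroup.zpowers e) inf_le_left ?_
      (cen_inv h (Or.inl ea) (Or.inl eb)) ⟨hin a h.aa hea, hin b h.bb heb⟩ ?_ ?_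
      ⟨e, Subgroup.mem_zpowers e, he, he1⟩
    · rw [Subgroup.zpowers_le]
      exact ⟨heK, Subgroup.mem_centralizer_singleton_iff.2 rfl⟩
    · rintro k ⟨-, hk⟩ n hn
      have h3 := hcm n hn k (Subgroup.mem_centralizer_singleton_iff.1 hk)
      have e1 : k⁻¹ * n * k = n := by
        rw [mul_assoc, ← h3]; group
      rwa [e1]
    · intro S _
      infer_instance
  · intro s ha hb hf
    refine h1 _ inf_le_left (cen_inv h ha hb) ?_
    intro hle
    obtain ⟨f, hf, hfs⟩ := hf
    exact hfs (Subgroup.mem_centralizer_singleton_iff.1 (hle hf).2)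
  · intro N hN hV hl hf
    have haN : a ∈ NS (N : Set G) := NS_invol h.aa hV.1
    have hbN : b ∈ NS (N : Set G) := NS_invol h.bb hV.2
    refine h2 (K ⊓ NS (N : Set G)) N inf_le_left ?_ ?_ hV ?_ hl hf
    · intro n hn
      refine ⟨hN hn, fun t => ⟨fun ht => N.mul_mem (N.mul_mem (N.inv_mem hn) ht) hn,
        fun ht => ?_⟩⟩
      have h3 := N.mul_mem (N.mul_mem hn ht) (N.inv_mem hn)
      have e : n * (n⁻¹ * t * n) * n⁻¹ = t := by group
      rwa [e] at h3
    · constructor
      · rintro u ⟨hu, hu'⟩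
        exact ⟨h.cjmem h.aa hu, (NS _).mul_mem ((NS _).mul_mem haN hu') haN⟩
      · rintro u ⟨hu, hu'⟩
        exact ⟨h.cjmem h.bb hu, (NS _).mul_mem ((NS _).mul_mem hbN hu') hbN⟩
    · rintro k ⟨-, hk⟩ n hn
      exact (hk n).1 hn

end Pool.Agent.FourGp.FF.Bs
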