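import Pool.Agent.Lib.MP_fb3619_al.BS.Iface
import Pool.Agent.Lib.MP_fb3619_al.FF.Sh

/-!
# MP_fb3619_al, board BS, row CMS: commensurated subgroups
-/

set_option autoImplicit false

universe u

namespace Pool.Agent.FourGp.FF.Bs

open Pool.Agent.FourGp.H47 (Odd' inv_of_sq conj_inv_pow mul_inv_self odd_conj comm_of_inv
  mul_inv_self' comm_pow comm_inv conj_comm comm_conj)
open Pool.Agent.FourGp.H99 (LF)
open Pool.Agent.FourGp.FF.Fi (cjg mem_cjg cjg_mul cjg_one rel_cjg Tm AT Fam)

theorem cms : CmsS.{u} := by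
  intro G _ K a b c hM S hSK hSV hSinf hcm x hx hfx
  have h := hM.fr
  -- `X = K ∩ HD(S)`
  have hX1 : ∀ k ∈ K, ∀ n ∈ K ⊓ HD S, k⁻¹ * n * k ∈ K ⊓ HD S := by
    intro k hk n hn
    obtain ⟨hnK, hn2⟩ := Subgroup.mem_inf.1 hn
    have hn3 : fi S n := mem_HD.1 hn2
    refine Subgroup.mem_inf.2 ⟨h.cjk hnK, mem_HD.2 ?_⟩
    have e1 : S.relIndex (cjg k S) ≠ 0 := by
      have h1 := rel_cjg (hcm k⁻¹ (K.inv_mem hk)) k
      rw [cjg_mul, mul_inv_cancel, cjg_one] at h1
      exact h1
    have e2 : (Subgroup.centralizer {n}).relIndex (cjg k S) ≠ 0 :=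
      Subgroup.relIndex_ne_zero_trans hn3 e1
    have e3 := rel_cjg e2 k⁻¹
    rw [cjg_mul, inv_mul_cancel, cjg_one] at e3
    have e4 : cjg k⁻¹ (Subgroup.centralizer {n}) = Subgroup.centralizer {k⁻¹ * n * k} := by
      ext g
      rw [mem_cjg, Subgroup.mem_centralizer_singleton_iff, Subgroup.mem_centralizer_singleton_iff,
        inv_inv]
      constructor
      · intro e
        calc g * (k⁻¹ * n * k) = k⁻¹ * (k * g * k⁻¹ * n) * k := by group
          _ = k⁻¹ * (n * (k * g * k⁻¹)) * k := by rw [e]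
          _ = k⁻¹ * n * k * g := by group
      · intro e
        calc k * g * k⁻¹ * n = k * (g * (k⁻¹ * n * k)) * k⁻¹ := by group
          _ = k * (k⁻¹ * n * k * g) * k⁻¹ := by rw [e]
          _ = n * (k * g * k⁻¹) := by group
    rw [e4] at e3
    exact e3
  have hXV : VInv a b (K ⊓ HD S) := by
    constructor
    · intro u hu
      obtain ⟨h1, h2⟩ := Subgroup.mem_inf.1 hu
      exact Subgroup.mem_inf.2 ⟨h.cjmem h.aa h1, mem_HD.2 (fi_inv h.aa hSV.1 (mem_HD.1 h2))⟩
    · intro u hu
      obtain ⟨h1, h2⟩ := Subgroup.mem_inf.1 hu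
      exact Subgroup.mem_inf.2 ⟨h.cjmem h.bb h1, mem_HD.2 (fi_inv h.bb hSV.2 (mem_HD.1 h2))⟩
  rcases hM.sim (K ⊓ HD S) inf_le_left hXV hX1 with h0 | h0
  · have : x ∈ (⊥ : Subgroup G) := by
      rw [← h0]
      exact Subgroup.mem_inf.2 ⟨hx, mem_HD.2 hfx⟩
    exact Subgroup.mem_bot.1 this
  · exfalso
    obtain ⟨T, hT⟩ := hM.fg
    have hTS : ∀ t ∈ T, fi S t := by
      intro t ht
      have ht1 : t ∈ K := by
        rw [← hT]
        exact Subgroup.subset_closure ht
      rw [← h0] at ht1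
      exact mem_HD.1 (Subgroup.mem_inf.1 ht1).2
    have hrel := relIndex_centralizer T hTS
    -- the centre
    have hZc : ∀ z ∈ K ⊓ Subgroup.centralizer (K : Set G), ∀ k ∈ K, k * z = z * k := by
      intro z hz k hk
      exact Subgroup.mem_centralizer_iff.1 (Subgroup.mem_inf.1 hz).2 k hk
    have hZV : ∀ y : G, y * y = 1 → ∀ z ∈ K ⊓ Subgroup.centralizer (K : Set G),
        y * z * y ∈ K ⊓ Subgroup.centralizer (K : Set G) := by
      intro y hy z hz
      refine Subgroup.mem_inf.2 ⟨h.cjmem hy (Subgroup.mem_inf.1 hz).1, ?_⟩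
      rw [Subgroup.mem_centralizer_iff]
      intro k hk
      have e := hZc z hz (y * k * y) (h.cjmem hy hk)
      calc k * (y * z * y) = (y * y) * k * (y * z * y) := by rw [hy]; group
        _ = y * ((y * k * y) * z) * y := by group
        _ = y * (z * (y * k * y)) * y := by rw [e]
        _ = y * z * y * k * (y * y) := by group
        _ = y * z * y * k := by rw [hy]; group
    have hZn : ∀ k ∈ K, ∀ n ∈ K ⊓ Subgroup.centralizer (K : Set G),
        k⁻¹ * n * k ∈ K ⊓ Subgroup.centralizer (K : Set G) := by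
      intro k hk n hn
      have e : k⁻¹ * n * k = n := by
        rw [mul_assoc, ← hZc n hn k hk]
        group
      rw [e]
      exact hn
    have hZlf : LF (K ⊓ Subgroup.centralizer (K : Set G) : Subgroup G) := by
      refine Pool.Agent.FourGp.H99.LF_of_fc ?_ ?_
      · intro g
        obtain ⟨n, hn⟩ := h.odd g.1 (Subgroup.mem_inf.1 g.2).1
        exact ⟨2 * n + 1, by omega, Subtype.ext (by simpa using hn)⟩
      · intro g
        have e : Subgroup.centralizer ({g} : Set (K ⊓ Subgroup.centralizer (K : Set G) :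
            Subgroup G)) = ⊤ := by
          rw [eq_top_iff]
          intro y _
          rw [Subgroup.mem_centralizer_singleton_iff]
          exact Subtype.ext (hZc g.1 g.2 y.1 (Subgroup.mem_inf.1 y.2).1)
        rw [e]
        infer_instance
    have hZ0 := hM.nolf _ inf_le_left ⟨hZV a h.aa, hZV b h.bb⟩ hZn hZlf
    -- the contradiction
    have hle : Subgroup.centralizer (T : Set G) ⊓ S ≤ ⊥ := by
      intro g hg
      obtain ⟨h1, h2⟩ := Subgroup.mem_inf.1 hg
      rw [← hZ0]
      refine Subgroup.mem_inf.2 ⟨hSK h2, ?_⟩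
      rw [← hT, Subgroup.centralizer_closure]
      exact h1
    have hcard : (⊥ : Subgroup G).relIndex S = 0 := by
      rw [Subgroup.relIndex_bot_left]
      exact Nat.card_eq_zero_of_infinite
    apply hrel
    rw [← Subgroup.inf_relIndex_right]
    rw [eq_bot_iff.2 hle]
    exact hcard

end Pool.Agent.FourGp.FF.Bs
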