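import Pool.Agent.Lib.MP_fb3619_al.BS.Iface
import Pool.Agent.Lib.MP_fb3619_al.H4.Abb

/-!
# MP_fb3619_al, board BS, row COR: the core (paper 5)
-/

set_option autoImplicit false

universe u

namespace Pool.Agent.FourGp.FF.Bs

open Pool.Agent.FourGp.H47 (Odd' inv_of_sq)
open Pool.Agent.FourGp.H99 (LF)

variable {G : Type u} [Group G] {K : Subgroup G} {a b c : G}

theorem cor_bb (hb : b * b = 1) (x : G) : b * (b * x * b) * b = x := by
  calc b * (b * x * b) * b = (b * b) * x * (b * b) := by group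
    _ = x := by rw [hb]; group

theorem cor_bg (hb : b * b = 1) (g x : G) :
    b * (g⁻¹ * x * g) * b = (b * g * b)⁻¹ * (b * x * b) * (b * g * b) := by
  have e : (b * g * b)⁻¹ = b * g⁻¹ * b := by
    rw [mul_inv_rev, mul_inv_rev, inv_of_sq hb]; group
  rw [e]
  calc b * (g⁻¹ * x * g) * b = b * g⁻¹ * 1 * x * 1 * g * b := by group
    _ = b * g⁻¹ * (b * b) * x * (b * b) * g * b := by rw [hb]
    _ = _ := by group

/-- An element of an invariant `N` with finitely many conjugates under `C_K(a)` is trivial. -/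
theorem cor_fi (h : Fr K a b c) (hF : (Fx K a b : Set G).Finite) (hN : NoLf K a b)
    {N : Subgroup G} (hNa : N ≤ Cz K a) (hNn : ∀ α ∈ Cz K a, ∀ n ∈ N, α⁻¹ * n * α ∈ N)
    (hNf : ∀ n ∈ N, fi (Cz K b) n) (hNb : ∀ n ∈ N, b * n * b ∈ N) {k : G} (hk : k ∈ N)
    (hfi : fi (Cz K a) k) : k = 1 := by
  have hF' : (Fx K b c : Set G).Finite := by rw [h.fx_rot]; exact hF
  have hbA : ∀ g ∈ Cz K a, b * g * b ∈ Cz K a := fun g hg => h.cz_inv h.bb h.cab.symm hg
  have hbk : fi (Cz K a) (b * k * b) := fi_inv h.bb hbA hfi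
  have hsub : ∀ x ∈ ({x | ∃ g ∈ Cz K a, x = g⁻¹ * k * g} ∪
      {x | ∃ g ∈ Cz K a, x = g⁻¹ * (b * k * b) * g} : Set G), x ∈ N := by
    rintro x (⟨g, hg, rfl⟩ | ⟨g, hg, rfl⟩)
    · exact hNn g hg _ hk
    · exact hNn g hg _ (hNb k hk)
  have hb : ∀ x ∈ ({x | ∃ g ∈ Cz K a, x = g⁻¹ * k * g} ∪
      {x | ∃ g ∈ Cz K a, x = g⁻¹ * (b * k * b) * g} : Set G), b * x * b ∈
      ({x | ∃ g ∈ Cz K a, x = g⁻¹ * k * g} ∪
      {x | ∃ g ∈ Cz K a, x = g⁻¹ * (b * k * b) * g} : Set G) := by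
    rintro x (⟨g, hg, rfl⟩ | ⟨g, hg, rfl⟩)
    · exact Or.inr ⟨b * g * b, hbA g hg, cor_bg h.bb g k⟩
    · refine Or.inl ⟨b * g * b, hbA g hg, ?_⟩
      rw [cor_bg h.bb, cor_bb h.bb]
  refine covN h.rot (hN.rot h) hF'
    (L := {x | ∃ g ∈ Cz K a, x = g⁻¹ * k * g} ∪ {x | ∃ g ∈ Cz K a, x = g⁻¹ * (b * k * b) * g})
    ((fi_finite hfi).union (fi_finite hbk)) ?_ ?_ hb ?_ ?_ k (Or.inl ⟨1, (Cz K a).one_mem, by group⟩)
  · intro x hx
    exact cz_le (hNa (hsub x hx))
  · rintro d hd x (⟨g, hg, rfl⟩ | ⟨g, hg, rfl⟩)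
    · exact Or.inl ⟨g * d, (Cz K a).mul_mem hg hd, by group⟩
    · exact Or.inr ⟨g * d, (Cz K a).mul_mem hg hd, by group⟩
  · intro x hx
    have hxa : x * a = a * x := (mem_Cz.1 (hNa (hsub x hx))).2
    have e : c * x * c = b * x * b := by
      calc c * x * c = (b * a) * x * (a * b) := by rw [h.ba, h.ab]
        _ = b * (a * x) * a * b := by group
        _ = b * (x * a) * a * b := by rw [hxa]
        _ = b * x * (a * a) * b := by group
        _ = b * x * b := by rw [h.aa, mul_one]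
    rw [e]
    exact hb x hx
  · intro x hx
    exact hNf x (hsub x hx)

/-- COR for an invariant `N`. -/
theorem cor_inv (h : Fr K a b c) (hF : (Fx K a b : Set G).Finite) (hN : NoLf K a b)
    {N : Subgroup G} (hNa : N ≤ Cz K a) (hNn : ∀ α ∈ Cz K a, ∀ n ∈ N, α⁻¹ * n * α ∈ N)
    (hNf : ∀ n ∈ N, fi (Cz K b) n) (hNb : ∀ n ∈ N, b * n * b ∈ N) : ∀ n ∈ N, n = 1 := by
  have hdec : ∀ n : N, ∃ w : Fx K a b, ∃ s : G, fi (Cz K a) s ∧ (n : G) = w * s := by
    intro n
    obtain ⟨w, s, hw, hs, e, h1, h2⟩ := h.dec (X := Cz K a) cz_le h.bb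
      (fun u hu => h.cz_inv h.bb h.cab.symm hu) (hNa n.2)
    exact ⟨⟨w, mem_Fx.2 ⟨(mem_Cz.1 hw).1, (mem_Cz.1 hw).2, h1⟩⟩, s,
      Abo.mi_fi shu h hF ⟨hs, h2⟩, e⟩
  choose f s hs he using hdec
  have hFf : Finite (Fx K a b) := hF.to_subtype
  have hinj : Function.Injective f := by
    intro n n' e
    have h1 : (n : G)⁻¹ * n' = (s n)⁻¹ * s n' := by
      rw [he n, he n', ← e]
      group
    have h2 : (n : G)⁻¹ * n' = 1 := by
      refine cor_fi h hF hN hNa hNn hNf hNb (N.mul_mem (N.inv_mem n.2) n'.2) ?_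
      rw [h1]
      exact Tri.fi_mul (Tri.fi_inv1 (hs n)) (hs n')
    exact Subtype.ext (inv_mul_eq_one.1 h2)
  have hNfin : Finite N := Finite.of_injective f hinj
  intro n hn
  refine cor_fi h hF hN hNa hNn hNf hNb hn (fi_of_finite ?_)
  refine (Set.toFinite (N : Set G)).subset ?_
  rintro x ⟨g, hg, rfl⟩
  exact hNn g hg n hn

theorem cor : CorS.{u} := by
  intro G _ K a b c h hF hN N hNa hNn hNf n hn
  have hbA : ∀ g ∈ Cz K a, b * g * b ∈ Cz K a := fun g hg => h.cz_inv h.bb h.cab.symm hg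
  set N' : Subgroup G := Subgroup.closure {x | x ∈ N ∨ b * x * b ∈ N} with hN'
  refine cor_inv h hF hN (N := N') ?_ ?_ ?_ ?_ n (Subgroup.subset_closure (Or.inl hn))
  · rw [hN', Subgroup.closure_le]
    rintro x (hx | hx)
    · exact hNa hx
    · have h1 := hbA _ (hNa hx)
      rwa [cor_bb h.bb] at h1
  · intro α hα x hx
    refine Subgroup.closure_induction (p := fun x _ => α⁻¹ * x * α ∈ N') ?_ ?_ ?_ ?_ hx
    · rintro x (hx | hx)
      · exact Subgroup.subset_closure (Or.inl (hNn α hα x hx))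
      · refine Subgroup.subset_closure (Or.inr ?_)
        rw [cor_bg h.bb]
        exact hNn _ (hbA α hα) _ hx
    · have e : α⁻¹ * 1 * α = 1 := by group
      rw [e]
      exact N'.one_mem
    · intro x y _ _ hx hy
      have e : α⁻¹ * (x * y) * α = (α⁻¹ * x * α) * (α⁻¹ * y * α) := by group
      rw [e]
      exact N'.mul_mem hx hy
    · intro x _ hx
      have e : α⁻¹ * x⁻¹ * α = (α⁻¹ * x * α)⁻¹ := by group
      rw [e]
      exact N'.inv_mem hx
  · have h1 : N' ≤ HD (Cz K b) := by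
      rw [hN', Subgroup.closure_le]
      rintro x (hx | hx)
      · exact hNf x hx
      · have h2 := fi_inv h.bb (fun d hd => h.cz_inv h.bb rfl hd) (hNf _ hx)
        rw [cor_bb h.bb] at h2
        exact h2
    exact fun x hx => h1 hx
  · intro x hx
    refine Subgroup.closure_induction (p := fun x _ => b * x * b ∈ N') ?_ ?_ ?_ ?_ hx
    · rintro x (hx | hx)
      · refine Subgroup.subset_closure (Or.inr ?_)
        rw [cor_bb h.bb]
        exact hx
      · exact Subgroup.subset_closure (Or.inl hx)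
    · rw [mul_one, h.bb]
      exact N'.one_mem
    · intro x y _ _ hx hy
      have e : b * (x * y) * b = (b * x * b) * (b * y * b) := by
        calc b * (x * y) * b = b * x * 1 * y * b := by group
          _ = b * x * (b * b) * y * b := by rw [h.bb]
          _ = _ := by group
      rw [e]
      exact N'.mul_mem hx hy
    · intro x _ hx
      have e : b * x⁻¹ * b = (b * x * b)⁻¹ := by
        rw [mul_inv_rev, mul_inv_rev, inv_of_sq h.bb]; group
      rw [e]
      exact N'.inv_mem hx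

end Pool.Agent.FourGp.FF.Bs
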