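import Pool.Agent.Lib.MP_fb3619_al.BS.Iface

/-!
# MP_fb3619_al, board BS, row CRD: the locally finite radical of a subgroup
Paper: `BS/Paper.md`, 1.
-/

set_option autoImplicit false

universe u

namespace Pool.Agent.FourGp.FF.Bs

open Pool.Agent.FourGp.H99 (LF)
open Pool.Agent.FourGp.FF.Fi (cjg mem_cjg)
open Pool.Agent.FourGp.FF.Abo (LF_prod)

/-- CRD. -/
theorem crd : CrdS.{u} := by
  intro G _ R
  let s : Set (Subgroup G) :=
    {M | M ≤ R ∧ (∀ r ∈ R, ∀ m ∈ M, r⁻¹ * m * r ∈ M) ∧ LF M}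
  have hbot : (⊥ : Subgroup G) ∈ s := by
    refine ⟨bot_le, ?_, ?_⟩
    · intro k _ n hn
      rw [Subgroup.mem_bot] at hn ⊢
      rw [hn]; group
    · intro S _
      infer_instance
  obtain ⟨Z, -, hZ⟩ := zorn_le_nonempty₀ s (by
    intro C hC hchain y hy
    have hdir : DirectedOn (· ≤ ·) C := hchain.directedOn
    have hne : C.Nonempty := ⟨y, hy⟩
    have hmem : ∀ x, x ∈ sSup C ↔ ∃ N ∈ C, x ∈ N := fun x => Subgroup.mem_sSup_of_directedOn hne hdir
    refine ⟨sSup C, ⟨sSup_le fun N hN => (hC hN).1, ?_, ?_⟩, fun z hz => le_sSup hz⟩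
    · intro k hk n hn
      obtain ⟨N, hN, hnN⟩ := (hmem n).1 hn
      exact (hmem _).2 ⟨N, hN, (hC hN).2.1 k hk n hnN⟩
    · classical
      refine LF_sub ?_
      rintro Y hY ⟨T, hT⟩
      have key : ∀ T : Finset G, (∀ t ∈ T, t ∈ sSup C) → ∃ N ∈ C, ∀ t ∈ T, t ∈ N := by
        intro T
        induction T using Finset.induction_on with
        | empty => exact fun _ => ⟨y, hy, fun t ht => absurd ht (Finset.notMem_empty t)⟩
        | insert t T _ ih =>
          intro hT
          obtain ⟨N₁, hN₁, h1⟩ := ih fun t ht => hT t (Finset.mem_insert_of_mem ht)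
          obtain ⟨N₂, hN₂, h2⟩ := (hmem t).1 (hT t (Finset.mem_insert_self _ _))
          obtain ⟨N₃, hN₃, h3, h4⟩ := hdir N₁ hN₁ N₂ hN₂
          refine ⟨N₃, hN₃, fun r hr => ?_⟩
          rcases Finset.mem_insert.1 hr with rfl | hr
          · exact h4 h2
          · exact h3 (h1 r hr)
      obtain ⟨N, hN, h1⟩ := key T fun t ht => hY (by
        rw [← hT]; exact Subgroup.subset_closure ht)
      have hYN : Y ≤ N := by
        rw [← hT, Subgroup.closure_le]
        exact h1
      have h2 : LF Y := LF_mono hYN (hC hN).2.2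
      have h3 : Finite (⊤ : Subgroup Y) := by
        refine h2 ⊤ ?_
        rw [← Group.fg_def, Group.fg_iff_subgroup_fg]
        exact ⟨T, hT⟩
      exact Finite.of_equiv _ (Subgroup.topEquiv (G := Y)).toEquiv) ⊥ hbot
  obtain ⟨hZR, hZn, hZl⟩ := hZ.prop
  have hmax : ∀ M : Subgroup G, M ≤ R → (∀ r ∈ R, ∀ m ∈ M, r⁻¹ * m * r ∈ M) → LF M →
      M ≤ Z := by
    intro M hMR hMn hMl
    obtain ⟨S, hS, hSl⟩ := LF_prod (B := Z) (N := M) (fun w hw n hn => hMn w (hZR hw) n hn)
      hZl hMl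
    have h1 : Z ⊔ M ∈ s := by
      refine ⟨sup_le hZR hMR, ?_, LF_mono (sup_le ?_ ?_) hSl⟩
      · intro r hr m hm
        have h2 : Z ⊔ M ≤ cjg r (Z ⊔ M) := by
          refine sup_le ?_ ?_
          · intro z hz
            rw [mem_cjg]
            exact (le_sup_left : Z ≤ Z ⊔ M) (hZn r hr z hz)
          · intro z hz
            rw [mem_cjg]
            exact (le_sup_right : M ≤ Z ⊔ M) (hMn r hr z hz)
        exact mem_cjg.1 (h2 hm)
      · intro z hz
        have h2 := hS z hz 1 M.one_mem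
        rwa [mul_one] at h2
      · intro z hz
        have h2 := hS 1 Z.one_mem z hz
        rwa [one_mul] at h2
    exact le_sup_right.trans (hZ.le_of_ge h1 le_sup_left)
  refine ⟨Z, hZR, hZl, ?_, hmax⟩
  intro g hg z hz
  have h1 : cjg g⁻¹ Z ≤ Z := by
    refine hmax _ ?_ ?_ ?_
    · intro x hx
      rw [mem_cjg, inv_inv] at hx
      have h2 := (hg _).1 (hZR hx)
      have e : g⁻¹ * (g * x * g⁻¹) * g = x := by group
      rwa [e] at h2
    · intro r hr m hm
      rw [mem_cjg, inv_inv] at hm ⊢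
      have h2 : g * r * g⁻¹ ∈ R := by
        rw [hg]
        have e : g⁻¹ * (g * r * g⁻¹) * g = r := by group
        rwa [e]
      have h3 := hZn _ h2 _ hm
      have e : (g * r * g⁻¹)⁻¹ * (g * m * g⁻¹) * (g * r * g⁻¹) = g * (r⁻¹ * m * r) * g⁻¹ := by
        group
      rwa [e] at h3
    · refine LF_of_inj (B := Z) (((MulAut.conj g).toMonoidHom.comp
        (cjg g⁻¹ Z).subtype).codRestrict Z ?_) ?_ hZl
      · intro x
        have h2 := mem_cjg.1 x.2
        rw [inv_inv] at h2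
        exact h2
      · intro x y hxy
        have h2 := congrArg (fun z : Z => (z : G)) hxy
        exact Subtype.ext ((MulAut.conj g).injective h2)
  refine h1 (mem_cjg.2 ?_)
  rw [inv_inv]
  have e : g * (g⁻¹ * z * g) * g⁻¹ = z := by group
  rwa [e]

end Pool.Agent.FourGp.FF.Bs
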