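import Pool.Agent.Lib.MP_fb3619_al.BS.Iface
import Pool.Agent.Lib.MP_fb3619_al.FF.Cnt

/-!
# MP_fb3619_al, board BS, row DIS (paper 9): an invariant subgroup which has finite index in two of
the three centralizers has bounded index in the inverted abelian subgroups of the third type.
-/

set_option autoImplicit false

universe u

namespace Pool.Agent.FourGp.FF.Bs

open Pool.Agent.FourGp.H47 (Odd' inv_of_sq conj_inv_pow mul_inv_self odd_conj comm_of_inv
  mul_inv_self' comm_pow comm_inv conj_comm comm_conj)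
open Pool.Agent.FourGp.H99 (LF)

namespace Dis

variable {G : Type u} [Group G] {K : Subgroup G} {a b c : G}

/-- The elements of `X` inverted by `z`. -/
def MV (X : Subgroup G) (z : G) : Set G := {u | u ∈ X ∧ z * u * z = u⁻¹}

theorem card_mv (h : Fr K a b c) {X : Subgroup G} (hX : X ≤ K) {z : G} (hz : z * z = 1)
    (hzX : ∀ u ∈ X, z * u * z ∈ X) :
    Nat.card X = Nat.card (Cz X z) * Nat.card (MV X z) := by
  rw [← Nat.card_prod]
  symm
  let f : Cz X z × MV X z → X := fun p =>
    ⟨p.1 * p.2, X.mul_mem (mem_Cz.1 p.1.2).1 p.2.2.1⟩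
  refine Nat.card_congr (Equiv.ofBijective f ⟨?_, ?_⟩)
  · rintro ⟨⟨w, hw⟩, ⟨s, hs⟩⟩ ⟨⟨w', hw'⟩, ⟨s', hs'⟩⟩ hf
    have e : w * s = w' * s' := congrArg Subtype.val hf
    obtain ⟨r1, r2⟩ := h.dec_uniq hz (hX hs.1) (hX hs'.1) (mem_Cz.1 hw).2 (mem_Cz.1 hw').2
      hs.2 hs'.2 e
    subst r1; subst r2
    rfl
  · rintro ⟨k, hk⟩
    obtain ⟨w, s, hw, hs, e, h1, h2⟩ := h.dec hX hz hzX hk
    exact ⟨(⟨w, mem_Cz.2 ⟨hw, h1⟩⟩, ⟨s, hs, h2⟩), Subtype.ext e.symm⟩

theorem vinv_c (h : Fr K a b c) {X : Subgroup G} (hV : VInv a b X) :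
    ∀ u ∈ X, c * u * c ∈ X := by
  intro u hu
  have e : c * u * c = a * (b * u * b) * a := by
    calc c * u * c = (a * b) * u * (b * a) := by rw [h.ab, h.ba]
      _ = _ := by group
  rw [e]
  exact hV.1 _ (hV.2 u hu)

/-- `|X^-| |X_0|² = |X_a| |X_b|` -/
theorem card_mv' (h : Fr K a b c) {X : Subgroup G} (hX : X ≤ K) (hV : VInv a b X) [Finite X] :
    Nat.card (MV X c) * (Nat.card (Fx X a b) * Nat.card (Fx X a b)) =
      Nat.card (Cz X a) * Nat.card (Cz X b) := by
  have e1 := card_mv h hX h.cc (vinv_c h hV)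
  have e2 := Cnt.card_main h hX hV
  have hpos : 0 < Nat.card (Cz X c) := by
    have hfin : Finite (Cz X c) := by
      have : Cz X c ≤ X := cz_le
      exact Finite.of_injective _ (Subgroup.inclusion_injective this)
    exact Nat.card_pos
  rw [e1] at e2
  refine Nat.eq_of_mul_eq_mul_left hpos ?_
  calc Nat.card (Cz X c) * (Nat.card (MV X c) * (Nat.card (Fx X a b) * Nat.card (Fx X a b)))
      = Nat.card (Cz X c) * Nat.card (MV X c) * (Nat.card (Fx X a b) * Nat.card (Fx X a b)) := by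
        ring
    _ = Nat.card (Cz X a) * Nat.card (Cz X b) * Nat.card (Cz X c) := e2
    _ = _ := by ring

/-- The finite case. -/
theorem fin_case (h : Fr K a b c) {K0 Y T : Subgroup G} (hK0 : K0 ≤ K) (hV0 : VInv a b K0)
    (hF : Fx K a b ≤ K0) (ha : K0.relIndex (Cz K a) ≠ 0) (hb : K0.relIndex (Cz K b) ≠ 0)
    (hYK : Y ≤ K) (hY : VInv a b Y) [Finite Y] (hTY : T ≤ Y)
    (hT : ∀ t ∈ T, c * t * c = t⁻¹) :
    K0.relIndex T ≤ K0.relIndex (Cz K a) * K0.relIndex (Cz K b) := by
  have hY' : VInv a b (K0 ⊓ Y) := ⟨fun u hu => ⟨hV0.1 u hu.1, hY.1 u hu.2⟩,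
    fun u hu => ⟨hV0.2 u hu.1, hY.2 u hu.2⟩⟩
  have hfY' : Finite (K0 ⊓ Y : Subgroup G) := by
    have : K0 ⊓ Y ≤ Y := inf_le_right
    exact Finite.of_injective _ (Subgroup.inclusion_injective this)
  have e1 := card_mv' h hYK hY
  have e2 := card_mv' h (inf_le_right.trans hYK) hY'
  have key : ∀ v, K0.relIndex (Cz K v) ≠ 0 →
      Nat.card (Cz Y v) ≤ Nat.card (Cz (K0 ⊓ Y) v) * K0.relIndex (Cz K v) := by
    intro v hv
    rw [Cnt.Cz_inf, ← Cnt.card_rel K0 (Cz Y v)]
    refine Nat.mul_le_mul_left _ ?_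
    refine Subgroup.relIndex_le_of_le_right ?_ hv
    exact inf_le_inf hYK le_rfl
  have ka := key a ha
  have kb := key b hb
  have hFx : Fx (K0 ⊓ Y) a b = Fx Y a b := by
    ext g
    rw [mem_Fx, mem_Fx]
    constructor
    · rintro ⟨h1, h2, h3⟩
      exact ⟨h1.2, h2, h3⟩
    · rintro ⟨h1, h2, h3⟩
      exact ⟨⟨hF (mem_Fx.2 ⟨hYK h1, h2, h3⟩), h1⟩, h2, h3⟩
  rw [hFx] at e2
  have hfpos : 0 < Nat.card (Fx Y a b) := by
    have hfin : Finite (Fx Y a b) := by
      have : Fx Y a b ≤ Y := inf_le_left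
      exact Finite.of_injective _ (Subgroup.inclusion_injective this)
    exact Nat.card_pos
  set f := Nat.card (Fx Y a b) with hf
  set m := Nat.card (MV Y c) with hm
  set m' := Nat.card (MV (K0 ⊓ Y) c) with hm'
  set na := K0.relIndex (Cz K a) with hna
  set nb := K0.relIndex (Cz K b) with hnb
  have i1 : m ≤ na * nb * m' := by
    have h1 : m * (f * f) ≤ na * nb * m' * (f * f) := by
      calc m * (f * f) = Nat.card (Cz Y a) * Nat.card (Cz Y b) := e1
        _ ≤ (Nat.card (Cz (K0 ⊓ Y) a) * na) * (Nat.card (Cz (K0 ⊓ Y) b) * nb) :=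
            Nat.mul_le_mul ka kb
        _ = (Nat.card (Cz (K0 ⊓ Y) a) * Nat.card (Cz (K0 ⊓ Y) b)) * (na * nb) := by ring
        _ = (m' * (f * f)) * (na * nb) := by rw [← e2]
        _ = _ := by ring
    exact Nat.le_of_mul_le_mul_right h1 (Nat.mul_pos hfpos hfpos)
  -- `T` is abelian
  have hab : ∀ t ∈ T, ∀ t' ∈ T, t * t' = t' * t := by
    intro t ht t' ht'
    have h1 := hT (t * t') (T.mul_mem ht ht')
    have h2 : c * (t * t') * c = t⁻¹ * t'⁻¹ := by
      calc c * (t * t') * c = (c * t * c) * (c * c)⁻¹ * (c * t' * c) := by group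
        _ = t⁻¹ * t'⁻¹ := by rw [h.cc, hT t ht, hT t' ht']; group
    rw [h2, mul_inv_rev] at h1
    have h3 := congrArg (fun x => x⁻¹) h1
    simp only [mul_inv_rev, inv_inv] at h3
    exact h3.symm
  have hfT : Finite T := Finite.of_injective _ (Subgroup.inclusion_injective hTY)
  have i2 : K0.relIndex T * m' ≤ m := by
    have hq : K0.relIndex T = Nat.card (T ⧸ K0.subgroupOf T) := rfl
    rw [hq, hm', hm, ← Nat.card_prod]
    have hfm : Finite (MV Y c) := by
      have hfs : (Y : Set G).Finite := Set.toFinite _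
      exact (hfs.subset (fun u hu => hu.1)).to_subtype
    let g : (T ⧸ K0.subgroupOf T) × MV (K0 ⊓ Y) c → MV Y c := fun p =>
      ⟨(Quotient.out p.1 : T) * (p.2 : G) * (Quotient.out p.1 : T), by
        have hs : ((Quotient.out p.1 : T) : G) ∈ T := (Quotient.out p.1 : T).2
        set s : G := ((Quotient.out p.1 : T) : G) with hsd
        have hk := p.2.2
        set k : G := (p.2 : G) with hkd
        refine ⟨Y.mul_mem (Y.mul_mem (hTY hs) hk.1.2) (hTY hs), ?_⟩
        calc c * (s * k * s) * c = (c * s * c) * (c * c)⁻¹ * (c * k * c) * (c * c)⁻¹ *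
              (c * s * c) := by group
          _ = s⁻¹ * k⁻¹ * s⁻¹ := by rw [h.cc, hT s hs, hk.2]; group
          _ = _ := by group⟩
    refine Nat.card_le_card_of_injective g ?_
    rintro ⟨q, ⟨k, hk⟩⟩ ⟨q', ⟨k', hk'⟩⟩ hg
    have hs : ((Quotient.out q : T) : G) ∈ T := (Quotient.out q : T).2
    have hs' : ((Quotient.out q' : T) : G) ∈ T := (Quotient.out q' : T).2
    have hg' : ((Quotient.out q : T) : G) * k * ((Quotient.out q : T) : G) =
        ((Quotient.out q' : T) : G) * k' * ((Quotient.out q' : T) : G) :=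
      congrArg Subtype.val hg
    set s : G := ((Quotient.out q : T) : G) with hsd
    set s' : G := ((Quotient.out q' : T) : G) with hsd'
    set r : G := s'⁻¹ * s with hr
    have hrT : r ∈ T := T.mul_mem (T.inv_mem hs') hs
    have hr' : s * s'⁻¹ = r := by
      rw [hr]
      exact hab s hs s'⁻¹ (T.inv_mem hs')
    have e3 : r * k * r = k' := by
      calc r * k * r = s'⁻¹ * s * k * (s * s'⁻¹) := by rw [hr']
        _ = s'⁻¹ * (s * k * s) * s'⁻¹ := by group
        _ = s'⁻¹ * (s' * k' * s') * s'⁻¹ := by rw [hg']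
        _ = k' := by group
    have e4 : (r * k) * (r * k) ∈ K0 := by
      have : (r * k) * (r * k) = k' * k := by
        calc (r * k) * (r * k) = (r * k * r) * k := by group
          _ = k' * k := by rw [e3]
      rw [this]
      exact K0.mul_mem hk'.1.1 hk.1.1
    have hrK : r * k ∈ K := K.mul_mem (hYK (hTY hrT)) (hK0 hk.1.1)
    obtain ⟨n, hn⟩ := h.odd _ hrK
    have e5 : r * k = ((r * k) * (r * k)) ^ (n + 1) := by
      calc r * k = (r * k) ^ (2 * n + 1) * (r * k) := by rw [hn, one_mul]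
        _ = (r * k) ^ (2 * (n + 1)) := by rw [← pow_succ]; congr 1
        _ = ((r * k) * (r * k)) ^ (n + 1) := by rw [pow_mul, pow_two]
    have e6 : r * k ∈ K0 := by
      rw [e5]
      exact K0.pow_mem e4 _
    have e7 : r ∈ K0 := by
      have : r = (r * k) * k⁻¹ := by group
      rw [this]
      exact K0.mul_mem e6 (K0.inv_mem hk.1.1)
    have e8 : q' = q := by
      have h1 : (QuotientGroup.mk (Quotient.out q') : T ⧸ K0.subgroupOf T) =
          QuotientGroup.mk (Quotient.out q) := by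
        refine QuotientGroup.eq.2 ?_
        rw [Subgroup.mem_subgroupOf]
        exact e7
      have h2 : (QuotientGroup.mk (Quotient.out q') : T ⧸ K0.subgroupOf T) = q' :=
        Quotient.out_eq q'
      have h3 : (QuotientGroup.mk (Quotient.out q) : T ⧸ K0.subgroupOf T) = q :=
        Quotient.out_eq q
      rw [← h2, h1, h3]
    subst e8
    have e9 : k = k' := by
      have h0 : s' = s := by rw [hsd, hsd']
      have h1 : r = 1 := by rw [hr, h0]; group
      rw [h1] at e3
      simpa using e3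
    subst e9
    rfl
  have hm'pos : 0 < m' := by
    have hfm : Finite (MV (K0 ⊓ Y) c) := by
      have hfs : ((K0 ⊓ Y : Subgroup G) : Set G).Finite := Set.toFinite _
      exact (hfs.subset (fun u hu => hu.1)).to_subtype
    have : Nonempty (MV (K0 ⊓ Y) c) :=
      ⟨⟨1, Subgroup.one_mem _, by rw [mul_one, h.cc, inv_one]⟩⟩
    exact Nat.card_pos
  exact Nat.le_of_mul_le_mul_right (i2.trans i1) hm'pos

end Dis

open Dis in
theorem dis : DisS.{u} := by
  intro G _ K a b c h _ K0 hK0 hV0 hF ha hb L hLK hLV hLF T hTL hT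
  set m := K0.relIndex (Cz K a) * K0.relIndex (Cz K b) with hm
  by_contra hbad
  have hemb : Nonempty (Fin (m + 1) ↪ (T ⧸ K0.subgroupOf T)) := by
    by_cases h0 : K0.relIndex T = 0
    · have hinf : Infinite (T ⧸ K0.subgroupOf T) := by
        by_contra hfin
        rw [not_infinite_iff_finite] at hfin
        have : 0 < (K0.subgroupOf T).index := Nat.card_pos
        exact this.ne' h0
      exact ⟨(Fin.valEmbedding).trans (Infinite.natEmbedding _)⟩
    · have hlt : m + 1 ≤ K0.relIndex T := by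
        by_contra hc
        exact hbad ⟨h0, by omega⟩
      have hfi : (K0.subgroupOf T).FiniteIndex := ⟨h0⟩
      have hfin : Finite (T ⧸ K0.subgroupOf T) := Subgroup.finite_quotient_of_finiteIndex
      have e : Fin (Nat.card (T ⧸ K0.subgroupOf T)) ≃ (T ⧸ K0.subgroupOf T) :=
        (Finite.equivFin _).symm
      exact ⟨(Fin.castLEEmb hlt).trans e.toEmbedding⟩
  obtain ⟨e⟩ := hemb
  set g : Fin (m + 1) → T := fun i => Quotient.out (e i) with hg
  have hdist : ∀ i j, ((g i : G))⁻¹ * (g j : G) ∈ K0 → i = j := by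
    intro i j hij
    have h1 : (g i)⁻¹ * g j ∈ K0.subgroupOf T := by
      rw [Subgroup.mem_subgroupOf]
      exact hij
    have h2 : (QuotientGroup.mk (g i) : T ⧸ K0.subgroupOf T) = QuotientGroup.mk (g j) :=
      QuotientGroup.eq.2 h1
    have h3 : ∀ i, (QuotientGroup.mk (g i) : T ⧸ K0.subgroupOf T) = e i := fun i =>
      Quotient.out_eq (e i)
    rw [h3, h3] at h2
    exact e.injective h2
  obtain ⟨Y, hYL, hYV, hYf, hSY⟩ := Cnt.hull h hLV hLF
    ((fun i : Fin (m + 1) => (g i : G)) '' Set.univ) (Set.finite_univ.image _) (by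
      rintro _ ⟨i, -, rfl⟩
      exact hTL (g i).2)
  have hb1 := fin_case (T := T ⊓ Y) h hK0 hV0 hF ha hb (hYL.trans hLK) hYV inf_le_right
    (fun t ht => hT t ht.1)
  have hfT : Finite (T ⊓ Y : Subgroup G) := by
    have : T ⊓ Y ≤ Y := inf_le_right
    exact Finite.of_injective _ (Subgroup.inclusion_injective this)
  have hb2 : m + 1 ≤ K0.relIndex (T ⊓ Y) := by
    have hinj : Function.Injective (fun i : Fin (m + 1) =>
        (QuotientGroup.mk (⟨g i, (g i).2, hSY ⟨i, trivial, rfl⟩⟩ : (T ⊓ Y : Subgroup G)) :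
          (T ⊓ Y : Subgroup G) ⧸ K0.subgroupOf (T ⊓ Y))) := by
      intro i j hij
      have h1 := QuotientGroup.eq.1 hij
      rw [Subgroup.mem_subgroupOf] at h1
      exact hdist i j h1
    have h2 := Nat.card_le_card_of_injective _ hinj
    rw [Nat.card_eq_fintype_card, Fintype.card_fin] at h2
    exact h2
  omega

end Pool.Agent.FourGp.FF.Bs
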