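import Pool.Agent.Lib.MP_fb3619_al.BS.Iface

/-!
# MP_fb3619_al, board BS: row EE (paper 10)
-/

set_option autoImplicit false

universe u

namespace Pool.Agent.FourGp.FF.Bs

open Pool.Agent.FourGp.H47 (Odd' inv_of_sq conj_inv_pow mul_inv_self odd_conj comm_of_inv
  mul_inv_self' comm_pow comm_inv conj_comm comm_conj)
open Pool.Agent.FourGp.H99 (LF)
open Pool.Agent.FourGp.FF.Abo

variable {G : Type u} [Group G] {K : Subgroup G} {a b c : G}

/-- An element of `K` commutes with whatever its square commutes with. -/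
theorem ee_sq (h : Fr K a b c) {s x : G} (hs : s ∈ K) (hc : Commute (s * s) x) :
    Commute s x := by
  obtain ⟨n, hn⟩ := h.odd s hs
  have e2 : (s * s) ^ (n + 1) = s := by
    rw [← pow_two, ← pow_mul]
    have : 2 * (n + 1) = (2 * n + 1) + 1 := by ring
    rw [this, pow_succ, hn, one_mul]
  have c4 := hc.pow_left (n + 1)
  rwa [e2] at c4

/-- If `a w` inverts `t`, `a` commutes with `w` and `w` has odd order, then `a` inverts `t`. -/
theorem ee_odd (h : Fr K a b c) {w t : G} (hw : w ∈ K) (hwa : w * a = a * w)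
    (hi : (a * w) * t * (a * w)⁻¹ = t⁻¹) : a * t * a = t⁻¹ := by
  obtain ⟨n, hn⟩ := h.odd w hw
  have hsq : Commute ((a * w) * (a * w)) t := by
    have e : (a * w) * (a * w) * t * ((a * w) * (a * w))⁻¹ = t := by
      calc (a * w) * (a * w) * t * ((a * w) * (a * w))⁻¹
          = (a * w) * ((a * w) * t * (a * w)⁻¹) * (a * w)⁻¹ := by group
        _ = (a * w) * t⁻¹ * (a * w)⁻¹ := by rw [hi]
        _ = ((a * w) * t * (a * w)⁻¹)⁻¹ := by group
        _ = t := by rw [hi, inv_inv]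
    exact mul_inv_eq_iff_eq_mul.1 e
  have c1 : Commute a w := hwa.symm
  have e3 : (a * w) ^ (2 * n + 1) = a := by
    rw [c1.mul_pow, hn, mul_one, pow_succ, pow_mul, pow_two, h.aa, one_pow, one_mul]
  have e4 : (a * w) ^ (2 * n + 1) = ((a * w) * (a * w)) ^ n * (a * w) := by
    rw [pow_succ, pow_mul, pow_two]
  have c2 : Commute (((a * w) * (a * w)) ^ n) t := hsq.pow_left n
  have ha : a = ((a * w) * (a * w)) ^ n * (a * w) := by rw [← e4, e3]
  have e5 : a * t * a⁻¹ = t⁻¹ := by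
    generalize hP : ((a * w) * (a * w)) ^ n = P at ha c2
    generalize a * w = Q at ha hi
    have c3 : P * t⁻¹ = t⁻¹ * P := c2.inv_right.eq
    calc a * t * a⁻¹ = P * (Q * t * Q⁻¹) * P⁻¹ := by rw [ha]; group
      _ = P * t⁻¹ * P⁻¹ := by rw [hi]
      _ = t⁻¹ := by rw [c3]; group
  rwa [inv_of_sq h.aa] at e5

/-- EE -/
theorem ee : EeS.{u} := by
  intro G _ K a b c h f γ β w w0 hf hγ hγf hβ hs hk hw hw0 hwf
  obtain ⟨hfK, hfa, hfb⟩ := mem_Fx.1 hf
  obtain ⟨hγK, hγc⟩ := mem_Cz.1 hγ.1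
  obtain ⟨hβK, hβb⟩ := mem_Cz.1 hβ.1
  obtain ⟨hwK, hwa⟩ := mem_Cz.1 hw
  have hγa := hγ.2
  have hβa := hβ.2
  -- `b` inverts `γ`
  have hγb : b * γ * b = γ⁻¹ := by
    calc b * γ * b = (a * c) * γ * (c * a) := by rw [h.ac, h.ca]
      _ = a * (c * γ) * c * a := by group
      _ = a * (γ * c) * c * a := by rw [hγc]
      _ = a * γ * (c * c) * a := by group
      _ = γ⁻¹ := by rw [h.cc, mul_one, hγa]
  -- `c` inverts `B⁻`
  have hc : ∀ x, x * b = b * x → a * x * a = x⁻¹ → c * x * c = x⁻¹ := by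
    intro x hxb hxa
    calc c * x * c = (a * b) * x * (b * a) := by rw [h.ab, h.ba]
      _ = a * (b * x) * b * a := by group
      _ = a * (x * b) * b * a := by rw [hxb]
      _ = a * x * (b * b) * a := by group
      _ = x⁻¹ := by rw [h.bb, mul_one, hxa]
  have hβc := hc β hβb hβa
  have hcγ : ∀ x, c * (γ⁻¹ * x * γ) * c = γ⁻¹ * (c * x * c) * γ := by
    intro x
    have e1 : c * γ⁻¹ = γ⁻¹ * c := (comm_inv hγc).symm
    calc c * (γ⁻¹ * x * γ) * c = (c * γ⁻¹) * x * (γ * c) := by group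
      _ = (γ⁻¹ * c) * x * (c * γ) := by rw [e1, hγc]
      _ = _ := by group
  have hkc : c * (γ⁻¹ * β * γ) * c = (γ⁻¹ * β * γ)⁻¹ := by
    rw [hcγ, hβc]; group
  have hw0K : w0 ∈ K := by
    have e : w0 = w⁻¹ * (γ⁻¹ * β * γ) := by rw [hk]; group
    rw [e]
    exact K.mul_mem (K.inv_mem hwK) (h.cjk hβK)
  have hwc : c * w * c = w⁻¹ :=
    comp_inv h (z := c) (k := γ⁻¹ * β * γ) h.cc h.cac.symm hkc hw0K hk hwa hw0
  -- `c w` inverts `w0`
  have hz : (c * w) * (c * w) = 1 := by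
    calc (c * w) * (c * w) = (c * w * c) * w := by group
      _ = 1 := by rw [hwc]; group
  have hzw : (c * w) * w0 * (c * w) = w0⁻¹ := by
    calc (c * w) * w0 * (c * w) = (c * (w * w0) * c) * w := by group
      _ = (c * (γ⁻¹ * β * γ) * c) * w := by rw [hk]
      _ = (γ⁻¹ * β * γ)⁻¹ * w := by rw [hkc]
      _ = (w * w0)⁻¹ * w := by rw [hk]
      _ = _ := by group
  have hy : Commute (b * w) w0 := by
    have e1 : b * w = (c * w) * a := by
      rw [mul_assoc, hwa, ← mul_assoc, h.ca]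
    have e2 : (b * w) * w0 * (b * w)⁻¹ = w0 := by
      rw [e1]
      have hzi : (c * w)⁻¹ = c * w := inv_of_sq hz
      calc (c * w) * a * w0 * ((c * w) * a)⁻¹ = (c * w) * (a * w0 * a⁻¹) * (c * w)⁻¹ := by group
        _ = (c * w) * w0⁻¹ * (c * w)⁻¹ := by rw [inv_of_sq h.aa, hw0]
        _ = ((c * w) * w0 * (c * w)⁻¹)⁻¹ := by group
        _ = w0 := by rw [hzi, hzw, inv_inv]
    exact mul_inv_eq_iff_eq_mul.1 e2
  have cfb : Commute f b := hfb
  have cwf : Commute w f := hwf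
  have cyf : Commute (b * w) f := cfb.symm.mul_left cwf
  have cff : Commute (b * w) (f⁻¹ * w0 * f) := (cyf.inv_right.mul_right hy).mul_right cyf
  -- `s ^ γ`
  obtain ⟨s, hsd⟩ : ∃ s, s = β⁻¹ * (f⁻¹ * β * f) := ⟨_, rfl⟩
  rw [← hsd] at hs ⊢
  have cγf : Commute γ f := hγf
  have hsγ : γ⁻¹ * s * γ = w0⁻¹ * (f⁻¹ * w0 * f) := by
    have e1 : γ⁻¹ * (f⁻¹ * β * f) * γ = f⁻¹ * (γ⁻¹ * β * γ) * f := by
      have e2 : γ⁻¹ * f⁻¹ = f⁻¹ * γ⁻¹ := (cγf.inv_left.inv_right).eq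
      calc γ⁻¹ * (f⁻¹ * β * f) * γ = (γ⁻¹ * f⁻¹) * β * (f * γ) := by group
        _ = (f⁻¹ * γ⁻¹) * β * (γ * f) := by rw [e2, hγf]
        _ = _ := by group
    have e3 : f⁻¹ * w = w * f⁻¹ := (cwf.symm.inv_left).eq
    calc γ⁻¹ * s * γ = (γ⁻¹ * β * γ)⁻¹ * (γ⁻¹ * (f⁻¹ * β * f) * γ) := by rw [hsd]; group
      _ = (w * w0)⁻¹ * (f⁻¹ * (w * w0) * f) := by rw [e1, hk]
      _ = w0⁻¹ * w⁻¹ * ((f⁻¹ * w) * w0 * f) := by group
      _ = w0⁻¹ * w⁻¹ * ((w * f⁻¹) * w0 * f) := by rw [e3]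
      _ = _ := by group
  have hsb := (mem_Cz.1 hs.1).2
  have hsc := hc s hsb hs.2
  have hsγc : c * (γ⁻¹ * s * γ) * c = (γ⁻¹ * s * γ)⁻¹ := by
    rw [hcγ, hsc]; group
  have hyt : Commute (b * w) (γ⁻¹ * s * γ) := by
    rw [hsγ]
    exact hy.inv_right.mul_right cff
  obtain ⟨t, ht⟩ : ∃ t, t = γ⁻¹ * s * γ := ⟨_, rfl⟩
  rw [← ht] at hsγc hyt
  have hi : (a * w) * t * (a * w)⁻¹ = t⁻¹ := by
    have e1 : a * w = c * (b * w) := by rw [← mul_assoc, h.cb]
    have e2 : (b * w) * t * (b * w)⁻¹ = t := by rw [hyt.eq]; group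
    calc (a * w) * t * (a * w)⁻¹ = c * ((b * w) * t * (b * w)⁻¹) * c⁻¹ := by rw [e1]; group
      _ = t⁻¹ := by rw [e2, inv_of_sq h.cc, hsγc]
  have hat := ee_odd h hwK hwa hi
  have hbt : b * t * b = t := by
    calc b * t * b = (a * c) * t * (c * a) := by rw [h.ac, h.ca]
      _ = a * (c * t * c) * a := by group
      _ = a * t⁻¹ * a := by rw [hsγc]
      _ = a * t⁻¹ * a⁻¹ := by rw [inv_of_sq h.aa]
      _ = (a * t * a⁻¹)⁻¹ := by group
      _ = t := by rw [inv_of_sq h.aa, hat, inv_inv]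
  -- so `s` commutes with `γ b γ⁻¹ = b γ⁻²`
  have c1 : Commute (γ * b * γ⁻¹) s := by
    have e1 : b * t = t * b := by
      calc b * t = (b * t * b) * b := by rw [mul_assoc, h.bb, mul_one]
        _ = t * b := by rw [hbt]
    have e2 : s = γ * t * γ⁻¹ := by rw [ht]; group
    rw [e2]
    change γ * b * γ⁻¹ * (γ * t * γ⁻¹) = γ * t * γ⁻¹ * (γ * b * γ⁻¹)
    calc γ * b * γ⁻¹ * (γ * t * γ⁻¹) = γ * (b * t) * γ⁻¹ := by group
      _ = γ * (t * b) * γ⁻¹ := by rw [e1]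
      _ = _ := by group
  have c2 : Commute b s := hsb.symm
  have e6 : γ * γ = (γ * b * γ⁻¹) * b := by
    have e7 : b * γ⁻¹ * b = γ := by
      calc b * γ⁻¹ * b = b * (b * γ * b) * b := by rw [hγb]
        _ = (b * b) * γ * (b * b) := by group
        _ = γ := by rw [h.bb]; group
    calc γ * γ = γ * (b * γ⁻¹ * b) := by rw [e7]
      _ = _ := by group
  have c3 : Commute (γ * γ) s := by
    rw [e6]
    exact c1.mul_left c2
  exact (ee_sq h hγK c3).eq.symm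

end Pool.Agent.FourGp.FF.Bs
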