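import Pool.Agent.Lib.MP_fb3619_al.BS.Iface
import Pool.Agent.Lib.MP_fb3619_al.AB.Upr

/-!
# MP_fb3619_al, board BS, row GEN: generation (paper 7)
-/

set_option autoImplicit false

universe u

namespace Pool.Agent.FourGp.FF.Bs

open Pool.Agent.FourGp.H47 (Odd' inv_of_sq conj_inv_pow mul_inv_self odd_conj comm_of_inv
  mul_inv_self' comm_pow comm_inv conj_comm comm_conj)
open Pool.Agent.FourGp.H99 (LF)
open Pool.Agent.FourGp.FF.Fi (cjg mem_cjg rel_cjg)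

section

variable {G : Type u} [Group G] {K : Subgroup G} {a b c : G}

/-- `C_K(b)` is not contained in `F`. -/
theorem gen_nlf (h : Fr K a b c) (hF : (Fx K a b : Set G).Finite) (hn : ¬ LF K)
    (hx : ∀ x ∈ Cz K b, x ∈ Fx K a b) : False := by
  have h1 : (Cz K b : Set G).Finite := hF.subset (fun x hx' => hx x hx')
  exact hn (lf_of_finite shu h h1.to_subtype)

/-- Conjugation by an element which commutes with the four-group. -/
theorem gen_mi (h : Fr K a b c) {g u : G} (ha : g * a = a * g) (hb : g * b = b * g)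
    (hu : Mi K b a u) : Mi K b a (g⁻¹ * u * g) := by
  obtain ⟨hu1, hu2⟩ := hu
  obtain ⟨huK, hub⟩ := mem_Cz.1 hu1
  have c1 : Commute g a := ha
  have c2 : Commute u b := hub
  have c3 : Commute g b := hb
  refine ⟨mem_Cz.2 ⟨h.cjk huK, ((c3.inv_left.mul_left c2).mul_left c3).eq⟩, ?_⟩
  calc a * (g⁻¹ * u * g) * a = (a * g⁻¹) * u * (g * a) := by group
    _ = (g⁻¹ * a) * u * (a * g) := by rw [c1.inv_left.eq, ha]
    _ = g⁻¹ * (a * u * a) * g := by group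
    _ = (g⁻¹ * u * g)⁻¹ := by rw [hu2]; group

theorem gen_cjg (h : Fr K a b c) {g z : G} (hg : g * z = z * g) : cjg g (Cz K z) = Cz K z := by
  have c1 : Commute g z := hg
  ext x
  rw [mem_cjg, mem_Cz, mem_Cz]
  constructor
  · rintro ⟨h1, h2⟩
    have c2 : Commute (g⁻¹ * x * g) z := h2
    have e : x = g * (g⁻¹ * x * g) * g⁻¹ := by group
    refine ⟨?_, ?_⟩
    · rw [e]
      exact h.nor.conj_mem _ h1 g
    · rw [e]
      exact ((c1.mul_left c2).mul_left c1.inv_left).eq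
  · rintro ⟨h1, h2⟩
    have c2 : Commute x z := h2
    exact ⟨h.cjk h1, ((c1.inv_left.mul_left c2).mul_left c1).eq⟩

theorem gen_rel (h : Fr K a b c) {g z : G} (hg : g * z = z * g) {L : Subgroup G}
    (hL : L.relIndex (Cz K z) ≠ 0) : (cjg g L).relIndex (Cz K z) ≠ 0 := by
  have h1 := rel_cjg hL g
  rwa [gen_cjg h hg] at h1

theorem gen_mi1 (h : Fr K a b c) {u : G} (hu : Mi K a b u) : Mi K a c u := by
  obtain ⟨h1, h2⟩ := hu
  refine ⟨h1, ?_⟩
  have hua := (mem_Cz.1 h1).2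
  calc c * u * c = (b * a) * u * (a * b) := by rw [h.ba, h.ab]
    _ = b * (a * (u * a)) * b := by group
    _ = b * (a * a * u) * b := by rw [hua]; group
    _ = u⁻¹ := by rw [h.aa, one_mul, h2]

theorem gen_mi2 (h : Fr K a b c) {u : G} (hu : Mi K a c u) : Mi K a b u :=
  gen_mi1 h.swap' hu

/-- GEN, first part. -/
theorem gen1 (h : MinC K a b c) (L : Subgroup G) (hA : ∀ u, Mi K a b u → u ∈ L)
    (hB : ∀ u, Mi K b a u → u ∈ L) : K ≤ L := by
  have hfr := h.fr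
  obtain ⟨h1, h2, h3⟩ := Pool.Agent.FourGp.AB.upr G K a c b hfr.swap'
  have h4 : VInv a b (Uc K a c b) := by
    refine ⟨h2, fun u hu => ?_⟩
    have e : b * u * b = a * (c * u * c) * a := by
      calc b * u * b = (a * c) * u * (c * a) := by rw [hfr.ac, hfr.ca]
        _ = _ := by group
    rw [e]
    exact h2 _ (h3 _ hu)
  have h5 : Uc K a c b ≤ L := by
    unfold Uc
    rw [Subgroup.closure_le]
    rintro u (hu | hu)
    · exact hA u (gen_mi2 hfr hu)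
    · exact hB u (gen_mi2 hfr.swap hu)
  rcases h.sim (Uc K a c b) Uc_le h4 h1 with h6 | h6
  · exfalso
    refine gen_nlf hfr.swap (by rw [Fct.fx_swap]; exact h.fin) h.nlf ?_
    intro x hx
    obtain ⟨w, s, hw, hs, e, e1, e2⟩ := hfr.dec (X := Cz K a) cz_le hfr.bb
      (fun u hu => hfr.cz_inv hfr.bb hfr.cab.symm hu) hx
    have h7 : s ∈ Uc K a c b := by
      unfold Uc
      exact Subgroup.subset_closure (Or.inl (gen_mi1 hfr ⟨hs, e2⟩))
    rw [h6, Subgroup.mem_bot] at h7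
    rw [e, h7, mul_one]
    exact mem_Fx.2 ⟨(mem_Cz.1 hw).1, e1, (mem_Cz.1 hw).2⟩
  · rw [← h6]
    exact h5

/-- `F L0` as a subgroup. -/
def genL2 (F L0 : Subgroup G) (hF : ∀ f ∈ F, ∀ l ∈ L0, f⁻¹ * l * f ∈ L0) : Subgroup G where
  carrier := {x | ∃ f ∈ F, ∃ l ∈ L0, x = f * l}
  mul_mem' := by
    rintro x y ⟨f, hf, l, hl, rfl⟩ ⟨f', hf', l', hl', rfl⟩
    exact ⟨f * f', F.mul_mem hf hf', f'⁻¹ * l * f' * l', L0.mul_mem (hF _ hf' _ hl) hl', by group⟩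
  one_mem' := ⟨1, F.one_mem, 1, L0.one_mem, by group⟩
  inv_mem' := by
    rintro x ⟨f, hf, l, hl, rfl⟩
    exact ⟨f⁻¹, F.inv_mem hf, f⁻¹⁻¹ * l⁻¹ * f⁻¹, hF _ (F.inv_mem hf) _ (L0.inv_mem hl), by group⟩

theorem mem_genL2 {F L0 : Subgroup G} {hF : ∀ f ∈ F, ∀ l ∈ L0, f⁻¹ * l * f ∈ L0} {x : G} :
    x ∈ genL2 F L0 hF ↔ ∃ f ∈ F, ∃ l ∈ L0, x = f * l := Iff.rfl

/-- The finite set `F V`. -/
theorem gen_W (h : Fr K a b c) (hF : (Fx K a b : Set G).Finite) :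
    ∃ W : Set G, W.Finite ∧ (1 : G) ∈ W ∧ (∀ g ∈ W, g * a = a * g ∧ g * b = b * g) ∧
      (∀ f ∈ Fx K a b, ∀ g ∈ W, f * g ∈ W) ∧ (∀ g ∈ W, a * g ∈ W) ∧ ∀ g ∈ W, b * g ∈ W := by
  refine ⟨Set.image2 (fun f v => f * v) (Fx K a b : Set G) {1, a, b, c},
    hF.image2 _ (Set.toFinite _), ⟨1, (Fx K a b).one_mem, 1, by simp, by simp⟩, ?_, ?_, ?_, ?_⟩
  · rintro _ ⟨f, hf, v, hv, rfl⟩
    obtain ⟨-, h1, h2⟩ := mem_Fx.1 hf
    have c1 : Commute f a := h1
    have c2 : Commute f b := h2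
    have c3 : Commute v a ∧ Commute v b := by
      simp only [Set.mem_insert_iff, Set.mem_singleton_iff] at hv
      rcases hv with rfl | rfl | rfl | rfl
      · exact ⟨Commute.one_left _, Commute.one_left _⟩
      · exact ⟨Commute.refl _, h.cab⟩
      · exact ⟨h.cab.symm, Commute.refl _⟩
      · exact ⟨h.cac.symm, h.cbc.symm⟩
    exact ⟨(c1.mul_left c3.1).eq, (c2.mul_left c3.2).eq⟩
  · rintro f hf _ ⟨f', hf', v, hv, rfl⟩
    exact ⟨f * f', (Fx K a b).mul_mem hf hf', v, hv, by simp only [mul_assoc]⟩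
  · rintro _ ⟨f, hf, v, hv, rfl⟩
    obtain ⟨-, h1, h2⟩ := mem_Fx.1 hf
    refine ⟨f, hf, a * v, ?_, by simp only [← mul_assoc, h1]⟩
    simp only [Set.mem_insert_iff, Set.mem_singleton_iff] at hv ⊢
    rcases hv with rfl | rfl | rfl | rfl
    · exact Or.inr (Or.inl (mul_one _))
    · exact Or.inl h.aa
    · exact Or.inr (Or.inr (Or.inr h.ab))
    · exact Or.inr (Or.inr (Or.inl h.ac))
  · rintro _ ⟨f, hf, v, hv, rfl⟩
    obtain ⟨-, h1, h2⟩ := mem_Fx.1 hf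
    refine ⟨f, hf, b * v, ?_, by simp only [← mul_assoc, h2]⟩
    simp only [Set.mem_insert_iff, Set.mem_singleton_iff] at hv ⊢
    rcases hv with rfl | rfl | rfl | rfl
    · exact Or.inr (Or.inr (Or.inl (mul_one _)))
    · exact Or.inr (Or.inr (Or.inr h.ba))
    · exact Or.inl h.bb
    · exact Or.inr (Or.inl h.bc)

/-- The largest subgroup of `L` invariant under the four-group and `F`. -/
theorem gen_L0 (h : Fr K a b c) (hF : (Fx K a b : Set G).Finite) (L : Subgroup G)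
    (hB : ∀ u, Mi K b a u → u ∈ L) (ha : L.relIndex (Cz K a) ≠ 0)
    (hc : L.relIndex (Cz K c) ≠ 0) :
    ∃ L0 : Subgroup G, L0 ≤ L ∧ VInv a b L0 ∧ (∀ f ∈ Fx K a b, ∀ l ∈ L0, f⁻¹ * l * f ∈ L0) ∧
      (∀ u, Mi K b a u → u ∈ L0) ∧ L0.relIndex (Cz K a) ≠ 0 ∧ L0.relIndex (Cz K c) ≠ 0 := by
  obtain ⟨W, hW, h1, hWc, hWF, hWa, hWb⟩ := gen_W h hF
  have hWfin : Finite W := hW.to_subtype
  have hmem : ∀ x, x ∈ (⨅ g : W, cjg (g : G) L) ↔ ∀ g ∈ W, g⁻¹ * x * g ∈ L := by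
    intro x
    rw [Subgroup.mem_iInf]
    constructor
    · intro hx g hg
      exact mem_cjg.1 (hx ⟨g, hg⟩)
    · rintro hx ⟨g, hg⟩
      exact mem_cjg.2 (hx g hg)
  have hcW : ∀ g ∈ W, g * c = c * g := by
    intro g hg
    have c1 : Commute g a := (hWc g hg).1
    have c2 : Commute g b := (hWc g hg).2
    have := c1.mul_right c2
    rw [h.ab] at this
    exact this
  refine ⟨⨅ g : W, cjg (g : G) L, ?_, ⟨?_, ?_⟩, ?_, ?_, ?_, ?_⟩
  · intro x hx
    have := (hmem x).1 hx 1 h1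
    simpa using this
  · intro x hx
    rw [hmem] at hx ⊢
    intro g hg
    have e : g⁻¹ * (a * x * a) * g = (a * g)⁻¹ * x * (a * g) := by
      rw [mul_inv_rev, inv_of_sq h.aa]; group
    rw [e]
    exact hx _ (hWa g hg)
  · intro x hx
    rw [hmem] at hx ⊢
    intro g hg
    have e : g⁻¹ * (b * x * b) * g = (b * g)⁻¹ * x * (b * g) := by
      rw [mul_inv_rev, inv_of_sq h.bb]; group
    rw [e]
    exact hx _ (hWb g hg)
  · intro f hf x hx
    rw [hmem] at hx ⊢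
    intro g hg
    have e : g⁻¹ * (f⁻¹ * x * f) * g = (f * g)⁻¹ * x * (f * g) := by group
    rw [e]
    exact hx _ (hWF f hf g hg)
  · intro u hu
    rw [hmem]
    intro g hg
    exact hB _ (gen_mi h (hWc g hg).1 (hWc g hg).2 hu)
  · exact Subgroup.relIndex_iInf_ne_zero fun g => gen_rel h (hWc g g.2).1 ha
  · exact Subgroup.relIndex_iInf_ne_zero fun g => gen_rel h (hcW g g.2) hc

/-- GEN, second part. -/
theorem gen2 (h : MinC K a b c) (L : Subgroup G) (hL : L ≤ K) (hB : ∀ u, Mi K b a u → u ∈ L)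
    (ha : L.relIndex (Cz K a) ≠ 0) (hc : L.relIndex (Cz K c) ≠ 0) : L = K := by
  have hfr := h.fr
  obtain ⟨L0, hle, hV, hF0, hB0, ha0, hc0⟩ := gen_L0 hfr h.fin L hB ha hc
  have hL0K : L0 ≤ K := hle.trans hL
  set L2 := genL2 (Fx K a b) L0 hF0 with hL2
  have m2 : ∀ x, x ∈ L2 ↔ ∃ f ∈ Fx K a b, ∃ l ∈ L0, x = f * l := fun x => Iff.rfl
  have hL2K : L2 ≤ K := by
    rintro x hx
    obtain ⟨f, hf, l, hl, rfl⟩ := (m2 x).1 hx
    exact K.mul_mem (mem_Fx.1 hf).1 (hL0K hl)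
  have h02 : L0 ≤ L2 := fun l hl => (m2 l).2 ⟨1, (Fx K a b).one_mem, l, hl, by group⟩
  have hV2 : VInv a b L2 := by
    refine ⟨fun x hx => ?_, fun x hx => ?_⟩
    · obtain ⟨f, hf, l, hl, rfl⟩ := (m2 x).1 hx
      refine (m2 _).2 ⟨f, hf, a * l * a, hV.1 l hl, ?_⟩
      calc a * (f * l) * a = (a * f) * l * a := by group
        _ = (f * a) * l * a := by rw [(mem_Fx.1 hf).2.1]
        _ = _ := by group
    · obtain ⟨f, hf, l, hl, rfl⟩ := (m2 x).1 hx
      refine (m2 _).2 ⟨f, hf, b * l * b, hV.2 l hl, ?_⟩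
      calc b * (f * l) * b = (b * f) * l * b := by group
        _ = (f * b) * l * b := by rw [(mem_Fx.1 hf).2.2]
        _ = _ := by group
  have hB2 : Cz K b ≤ L2 := by
    intro x hx
    obtain ⟨w, s, hw, hs, e, e1, e2⟩ := hfr.dec (X := Cz K b) cz_le hfr.aa
      (fun u hu => hfr.cz_inv hfr.aa hfr.cab hu) hx
    exact (m2 x).2 ⟨w, mem_Fx.2 ⟨(mem_Cz.1 hw).1, e1, (mem_Cz.1 hw).2⟩, s, hB0 s ⟨hs, e2⟩, e⟩
  have hself : L2 ≤ NS (L2 : Set G) := by
    intro k hk t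
    refine ⟨fun ht => L2.mul_mem (L2.mul_mem (L2.inv_mem hk) ht) hk, fun ht => ?_⟩
    have h1 := L2.mul_mem (L2.mul_mem hk ht) (L2.inv_mem hk)
    have e : k * (k⁻¹ * t * k) * k⁻¹ = t := by group
    rwa [e] at h1
  have hcinv : ∀ s ∈ L2, c * s * c ∈ L2 := by
    intro s hs
    have e : c * s * c = a * (b * s * b) * a := by
      calc c * s * c = (a * b) * s * (b * a) := by rw [hfr.ab, hfr.ba]
        _ = _ := by group
    rw [e]
    exact hV2.1 _ (hV2.2 _ hs)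
  have hcov := Abo.cov2 hfr h.fin (L := (L2 : Set G))
    (fun g hg s hs => L2.mul_mem (L2.mul_mem (L2.inv_mem (hB2 hg)) hs) (hB2 hg))
    hV2.1 hcinv
    (ne_zero_of_dvd_ne_zero ha0 (Subgroup.relIndex_dvd_of_le_left _ (h02.trans hself)))
    (ne_zero_of_dvd_ne_zero hc0 (Subgroup.relIndex_dvd_of_le_left _ (h02.trans hself)))
  have haN : a ∈ NS (L2 : Set G) := NS_invol hfr.aa hV2.1
  have hbN : b ∈ NS (L2 : Set G) := NS_invol hfr.bb hV2.2
  have hK := h.ind (K ⊓ NS (L2 : Set G)) inf_le_left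
    ⟨fun u hu => ⟨hfr.cjmem hfr.aa hu.1, (NS (L2 : Set G)).mul_mem
      ((NS (L2 : Set G)).mul_mem haN hu.2) haN⟩,
    fun u hu => ⟨hfr.cjmem hfr.bb hu.1, (NS (L2 : Set G)).mul_mem
      ((NS (L2 : Set G)).mul_mem hbN hu.2) hbN⟩⟩ hcov
  have hKN : K ≤ NS (L2 : Set G) := by
    rw [← hK]
    exact inf_le_right
  rcases h.sim L2 hL2K hV2 (fun k hk n hn => (hKN hk n).1 hn) with h6 | h6
  · exfalso
    refine gen_nlf hfr h.fin h.nlf ?_
    intro x hx
    have h7 := hB2 hx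
    rw [h6, Subgroup.mem_bot] at h7
    rw [h7]
    exact (Fx K a b).one_mem
  · have h7 : L0.relIndex K ≠ 0 := by
      refine Fct.idx h.fin ?_
      intro g hg
      rw [← h6] at hg
      obtain ⟨f, hf, l, hl, rfl⟩ := (m2 g).1 hg
      have h8 := hF0 f⁻¹ ((Fx K a b).inv_mem hf) l hl
      exact ⟨f, hf, f⁻¹⁻¹ * l * f⁻¹, h8, by group⟩
    have h9 := h.ind L0 hL0K hV h7
    refine le_antisymm hL ?_
    rw [← h9]
    exact hle

end

/-- Row GEN. -/
theorem gen : GenS.{u} := by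
  intro G _ K a b c h
  exact ⟨fun L hL hA hB => le_antisymm hL (gen1 h L hA hB),
    fun L hL hB ha hc => gen2 h L hL hB ha hc⟩

end Pool.Agent.FourGp.FF.Bs
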