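import Pool.Agent.Lib.MP_fb3619_al.BS.Sd

/-!
# MP_fb3619_al, board BS, row HER (paper 4)
-/

set_option autoImplicit false

universe u

namespace Pool.Agent.FourGp.FF.Bs

open Pool.Agent.FourGp.H99 (LF)

/-- The fixed points of the four-group in a quotient frame are finite in number. -/
theorem QD.fx_fin {G : Type u} [Group G] {K N : Subgroup G} {a b c : G} (h : Fr K a b c)
    (hF : (Fx K a b : Set G).Finite) {Q : Type u} [Group Q]
    {K' : Subgroup Q} {a' b' c' : Q} {π : K →* Q}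
    (q : QD K N a b c K' a' b' c' π) : (Fx K' a' b' : Set Q).Finite := by
  have h1 : (((fun k : K => (k : G)) ⁻¹' (Fx K a b : Set G))).Finite :=
    hF.preimage Subtype.val_injective.injOn
  refine (h1.image π).subset ?_
  intro x hx
  obtain ⟨k, hk, rfl⟩ := q.lift_fx h hx
  exact ⟨k, hk, rfl⟩

/-- HER. -/
theorem her : HerS.{u} := by
  intro G _ K a b c h
  refine ⟨?_, ?_⟩
  · intro L hL hV hnot
    obtain ⟨Q, _, K', a', b', c', ι, s⟩ := sd G K a b c h.fr L hL hV
    refine s.lf.1 (h.min Q K' a' b' c' s.fr (s.fx_fin hL h.fin) ?_)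
    rw [s.card_fx hL]
    have hfin : Finite (Fx K a b) := h.fin.to_subtype
    have hle : (L ⊓ Fx K a b : Subgroup G) ≤ Fx K a b := inf_le_right
    refine lt_of_le_of_ne (Subgroup.card_le_of_le hle) fun e => hnot ?_
    have h1 := Subgroup.eq_of_le_of_card_ge hle e.ge
    intro x hx
    rw [← h1] at hx
    exact hx.1
  · intro L N hL hNL hV hNV hn hNl hf
    obtain ⟨Q, _, K', a', b', c', ι, s⟩ := sd G K a b c h.fr L hL hV
    have hN1 : (N.comap ι) ≤ K' := fun x hx => (s.mem x).2 (hNL hx)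
    have hN2 : VInv a' b' (N.comap ι) := by
      rw [s.vinv, s.comap_map hNL]
      exact hNV
    have hN3 : ∀ k ∈ K', ∀ n ∈ N.comap ι, k⁻¹ * n * k ∈ N.comap ι := by
      rw [s.norm, s.comap_map hNL]
      exact hn
    have hN4 : LF (N.comap ι) := by
      rw [s.lf_map, s.comap_map hNL]
      exact hNl
    have hfin' := s.fx_fin hL h.fin
    obtain ⟨Q1, _, K1, a1, b1, c1, π, q⟩ := exists_QD s.fr hN1 hN2 hN3
    have hfin1 : (Fx K1 a1 b1 : Set Q1).Finite := QD.fx_fin s.fr hfin' q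
    obtain ⟨-, hlt, -⟩ := qdc Q K' (N.comap ι) a' b' c' s.fr hfin' Q1 K1 a1 b1 c1 π q
    refine s.lf.1 (q.LF_of_quot hN4 (h.min Q1 K1 a1 b1 c1 q.fr hfin1
      (lt_of_lt_of_le (hlt ?_) ?_)))
    · obtain ⟨f, hfN, hfF, hf1⟩ := hf
      obtain ⟨x, rfl⟩ := s.sur f (hNL hfN)
      refine ⟨x, hfN, (s.mem_fx hL x).2 ⟨hNL hfN, hfF⟩, fun e => hf1 ?_⟩
      rw [e, map_one]
    · rw [s.card_fx hL]
      have hfin : Finite (Fx K a b) := h.fin.to_subtype
      exact Subgroup.card_le_of_le inf_le_right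

end Pool.Agent.FourGp.FF.Bs
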