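import Pool.Agent.Lib.MP_fb3619_al.PQ.Iface
import Pool.Agent.Lib.MP_fb3619_al.H74.Fid
import Pool.Agent.Lib.MP_fb3619_al.FF.Bridge

/-!
# MP_fb3619_al, board BS: the minimal counterexample and the basic tools. Statements of the rows.
Paper: `BS/Paper.md`.
-/

set_option autoImplicit false

universe u

namespace Pool.Agent.FourGp.FF.Bs

open Pool.Agent.FourGp.H47 (Odd' inv_of_sq conj_inv_pow mul_inv_self odd_conj comm_of_inv
  mul_inv_self' comm_pow comm_inv conj_comm comm_conj)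
open Pool.Agent.FourGp.H99 (LF)
open Pool.Agent.FourGp.FF.Fi (cjg Tm AT Fam)

/-- A counterexample with `|C_K(V)|` minimal among ALL counterexamples, finitely generated, with
trivial locally finite radical. -/
structure Min0 {G : Type u} [Group G] (K : Subgroup G) (a b c : G) : Prop where
  fr : Fr K a b c
  fin : (Fx K a b : Set G).Finite
  nlf : ¬ LF K
  fg : K.FG
  nolf : NoLf K a b
  min : ∀ (Q : Type u) [Group Q] (K' : Subgroup Q) (a' b' c' : Q), Fr K' a' b' c' →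
    (Fx K' a' b' : Set Q).Finite → Nat.card (Fx K' a' b') < Nat.card (Fx K a b) → LF K'

/-- The normalised minimal counterexample: moreover `K` has no normal subgroup invariant under the
four-group except `1` and `K`, and no proper subgroup of finite index invariant under the
four-group. -/
structure MinC {G : Type u} [Group G] (K : Subgroup G) (a b c : G) : Prop extends
    Min0 K a b c where
  sim : ∀ N : Subgroup G, N ≤ K → VInv a b N → (∀ k ∈ K, ∀ n ∈ N, k⁻¹ * n * k ∈ N) →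
    N = ⊥ ∨ N = K
  ind : ∀ L : Subgroup G, L ≤ K → VInv a b L → L.relIndex K ≠ 0 → L = K

/-- `L` with the four-group, as a group of its own. -/
structure SD {G : Type u} [Group G] (L : Subgroup G) (a b c : G) {Q : Type u} [Group Q]
    (K' : Subgroup Q) (a' b' c' : Q) (ι : Q →* G) : Prop where
  fr : Fr K' a' b' c'
  inj : Function.Injective ι
  mem : ∀ q, q ∈ K' ↔ ι q ∈ L
  sur : ∀ l ∈ L, ∃ q, ι q = l
  ea : ι a' = a
  eb : ι b' = b
  ec : ι c' = c

/-- SD (paper 1): existence. -/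
def SdS : Prop := ∀ (G : Type u) [Group G] (K : Subgroup G) (a b c : G), Fr K a b c →
  ∀ L : Subgroup G, L ≤ K → VInv a b L → ∃ (Q : Type u) (_ : Group Q) (K' : Subgroup Q)
    (a' b' c' : Q) (ι : Q →* G), SD L a b c K' a' b' c' ι

/-- SDF (paper 1): facts on `SD`. -/
def SdfS : Prop := ∀ (G : Type u) [Group G] (K : Subgroup G) (a b c : G), Fr K a b c →
  ∀ (L : Subgroup G), L ≤ K → VInv a b L → ∀ (Q : Type u) [Group Q] (K' : Subgroup Q)
    (a' b' c' : Q) (ι : Q →* G), SD L a b c K' a' b' c' ι →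
  (LF K' ↔ LF L) ∧ (K'.FG ↔ L.FG) ∧
  (∀ q, q ∈ Fx K' a' b' ↔ ι q ∈ L ∧ ι q ∈ Fx K a b) ∧
  Nat.card (Fx K' a' b') = Nat.card (L ⊓ Fx K a b : Subgroup G) ∧
  (∀ Z : Subgroup Q, Z ≤ K' → (VInv a' b' Z ↔ VInv a b (Z.map ι))) ∧
  (∀ Z Y : Subgroup Q, (Z.map ι).relIndex (Y.map ι) = Z.relIndex Y)

/-- QDC (paper 1): the order of `C_K(V)` in a quotient. -/
def QdcS : Prop := ∀ (G : Type u) [Group G] (K N : Subgroup G) (a b c : G), Fr K a b c →
  (Fx K a b : Set G).Finite → ∀ (Q : Type u) [Group Q] (K' : Subgroup Q) (a' b' c' : Q)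
    (π : K →* Q), QD K N a b c K' a' b' c' π →
  Nat.card (Fx K' a' b') ≤ Nat.card (Fx K a b) ∧
  ((∃ f ∈ N, f ∈ Fx K a b ∧ f ≠ 1) → Nat.card (Fx K' a' b') < Nat.card (Fx K a b)) ∧
  (K.FG → K'.FG)

/-- CRD (paper 1): the locally finite radical of `R`; it is normalised by the normaliser of `R`. -/
def CrdS : Prop := ∀ (G : Type u) [Group G] (R : Subgroup G), ∃ Z : Subgroup G, Z ≤ R ∧ LF Z ∧
  (∀ g : G, (∀ r, r ∈ R ↔ g⁻¹ * r * g ∈ R) → ∀ z ∈ Z, g⁻¹ * z * g ∈ Z) ∧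
  ∀ M : Subgroup G, M ≤ R → (∀ r ∈ R, ∀ m ∈ M, r⁻¹ * m * r ∈ M) → LF M → M ≤ Z

/-- RD0 (paper 2). -/
def Rd0S : Prop := (∀ (G : Type u) [Group G] (K : Subgroup G) (a b c : G), ¬ Min0 K a b c) →
  ∀ (G : Type u) [Group G] (K : Subgroup G) (a b c : G), Fr K a b c →
    (Fx K a b : Set G).Finite → LF K

/-- JI (paper 3): an invariant normal subgroup `≠ 1` has finite index. -/
def JiS : Prop := ∀ (G : Type u) [Group G] (K : Subgroup G) (a b c : G), Min0 K a b c →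
  ∀ N : Subgroup G, N ≤ K → VInv a b N → (∀ k ∈ K, ∀ n ∈ N, k⁻¹ * n * k ∈ N) → N ≠ ⊥ →
  N.relIndex K ≠ 0

/-- RD1 (paper 3). -/
def Rd1S : Prop := (∀ (G : Type u) [Group G] (K : Subgroup G) (a b c : G), ¬ MinC K a b c) →
  ∀ (G : Type u) [Group G] (K : Subgroup G) (a b c : G), ¬ Min0 K a b c

/-- The reduction: THEOREM (consumer form). -/
def RedS : Prop := (∀ (G : Type u) [Group G] (K : Subgroup G) (a b c : G), ¬ MinC K a b c) →
  ∀ (G : Type u) [Group G] (K : Subgroup G) (a b c : G), Fr K a b c →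
    (Fx K a b : Set G).Finite → LF K

theorem red (h0 : Rd0S.{u}) (h1 : Rd1S.{u}) : RedS.{u} := fun h => h0 (h1 h)

/-- HER (paper 4): invariant subgroups which do not contain `F`, or which have a normal locally
finite invariant subgroup meeting `F` nontrivially, are locally finite. -/
def HerS : Prop := ∀ (G : Type u) [Group G] (K : Subgroup G) (a b c : G), Min0 K a b c →
  (∀ L : Subgroup G, L ≤ K → VInv a b L → ¬ Fx K a b ≤ L → LF L) ∧
  ∀ L N : Subgroup G, L ≤ K → N ≤ L → VInv a b L → VInv a b N →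
    (∀ k ∈ L, ∀ n ∈ N, k⁻¹ * n * k ∈ N) → LF N → (∃ f ∈ N, f ∈ Fx K a b ∧ f ≠ 1) → LF L

/-- CK (paper 4): centralizers and normalizers which are locally finite. `NS S` is the stabiliser
of the set `S` under conjugation. -/
def CkS : Prop := ∀ (G : Type u) [Group G] (K : Subgroup G) (a b c : G), Min0 K a b c →
  (∀ e ∈ Fx K a b, e ≠ 1 → LF (K ⊓ Subgroup.centralizer {e} : Subgroup G)) ∧
  (∀ s : G, (a * s * a = s ∨ a * s * a = s⁻¹) → (b * s * b = s ∨ b * s * b = s⁻¹) →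
    (∃ f ∈ Fx K a b, f * s ≠ s * f) → LF (K ⊓ Subgroup.centralizer {s} : Subgroup G)) ∧
  (∀ N : Subgroup G, N ≤ K → VInv a b N → LF N → (∃ f ∈ N, f ∈ Fx K a b ∧ f ≠ 1) →
    LF (K ⊓ NS (N : Set G) : Subgroup G))

/-- COR (paper 5): CORE. No hypothesis of minimality. -/
def CorS : Prop := ∀ (G : Type u) [Group G] (K : Subgroup G) (a b c : G), Fr K a b c →
  (Fx K a b : Set G).Finite → NoLf K a b → ∀ N : Subgroup G, N ≤ Cz K a →
  (∀ α ∈ Cz K a, ∀ n ∈ N, α⁻¹ * n * α ∈ N) → (∀ n ∈ N, fi (Cz K b) n) → ∀ n ∈ N, n = 1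

/-- CMS (paper 6): a commensurated infinite invariant subgroup `S` has `HD(S) = 1`. -/
def CmsS : Prop := ∀ (G : Type u) [Group G] (K : Subgroup G) (a b c : G), MinC K a b c →
  ∀ S : Subgroup G, S ≤ K → VInv a b S → Infinite S →
  (∀ k ∈ K, (cjg k S).relIndex S ≠ 0) → ∀ x ∈ K, fi S x → x = 1

/-- GEN (paper 7): generation. -/
def GenS : Prop := ∀ (G : Type u) [Group G] (K : Subgroup G) (a b c : G), MinC K a b c →
  (∀ L : Subgroup G, L ≤ K → (∀ u, Mi K a b u → u ∈ L) → (∀ u, Mi K b a u → u ∈ L) → L = K) ∧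
  (∀ L : Subgroup G, L ≤ K → (∀ u, Mi K b a u → u ∈ L) → L.relIndex (Cz K a) ≠ 0 →
    L.relIndex (Cz K c) ≠ 0 → L = K)

/-- RV (paper 8): the commensurator of `C_K(b)` is `F HD_b`. -/
def RvS : Prop := ∀ (G : Type u) [Group G] (K : Subgroup G) (a b c : G), Fr K a b c →
  (Fx K a b : Set G).Finite → ∀ k ∈ K, (cjg k (Cz K b)).relIndex (Cz K b) ≠ 0 →
  ∃ f ∈ Fx K a b, fi (Cz K b) (f⁻¹ * k)

/-- DIS (paper 9). -/
def DisS : Prop := ∀ (G : Type u) [Group G] (K : Subgroup G) (a b c : G), Fr K a b c →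
  (Fx K a b : Set G).Finite → ∀ K0 : Subgroup G, K0 ≤ K → VInv a b K0 → Fx K a b ≤ K0 →
  K0.relIndex (Cz K a) ≠ 0 → K0.relIndex (Cz K b) ≠ 0 →
  ∀ L : Subgroup G, L ≤ K → VInv a b L → LF L → ∀ T : Subgroup G, T ≤ L →
  (∀ t ∈ T, c * t * c = t⁻¹) →
  K0.relIndex T ≠ 0 ∧ K0.relIndex T ≤ K0.relIndex (Cz K a) * K0.relIndex (Cz K b)

/-- EE (paper 10): the exact Jacobi identity with `f ∈ F`. Here `w` is the `a`-component of
`γ⁻¹ β γ`. -/
def EeS : Prop := ∀ (G : Type u) [Group G] (K : Subgroup G) (a b c : G), Fr K a b c →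
  ∀ f γ β w w0 : G, f ∈ Fx K a b → Mi K c a γ → γ * f = f * γ → Mi K b a β →
  Mi K b a (β⁻¹ * (f⁻¹ * β * f)) → γ⁻¹ * β * γ = w * w0 → w ∈ Cz K a → a * w0 * a = w0⁻¹ →
  w * f = f * w →
  (β⁻¹ * (f⁻¹ * β * f)) * γ = γ * (β⁻¹ * (f⁻¹ * β * f))

end Pool.Agent.FourGp.FF.Bs
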