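import Pool.Agent.Lib.MP_fb3619_al.BS.Sd

/-!
# MP_fb3619_al, board BS, row JI (helper94)

In a minimal counterexample every invariant normal subgroup different from `1` has finite index.
-/

set_option autoImplicit false

universe u

namespace Pool.Agent.FourGp.FF.Bs

open Pool.Agent.FourGp.H99 (LF)

/-- The projection maps `C_K(V)` into `C_{K'}(V')`. -/
private theorem fx_map {G : Type u} [Group G] {K : Subgroup G} {a b c : G} (h : Fr K a b c)
    {N : Subgroup G} {Q : Type u} [Group Q] {K' : Subgroup Q} {a' b' c' : Q} {π : K →* Q}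
    (q : QD K N a b c K' a' b' c' π) {w : G} (hwK : w ∈ K) (hw : w ∈ Fx K a b) :
    π ⟨w, hwK⟩ ∈ Fx K' a' b' := by
  have h1 := mem_Fx.1 hw
  refine mem_Fx.2 ⟨(q.ran _).2 ⟨_, rfl⟩, ?_, ?_⟩
  · have e1 : a * w * a = w := by rw [← h1.2.1, mul_assoc, h.aa, mul_one]
    have e2 := q.ca ⟨w, hwK⟩ ⟨w, hwK⟩ e1.symm
    calc π ⟨w, hwK⟩ * a' = a' * π ⟨w, hwK⟩ * a' * a' := by rw [← e2]
      _ = a' * π ⟨w, hwK⟩ * (a' * a') := by group
      _ = a' * π ⟨w, hwK⟩ := by rw [q.fr.aa, mul_one]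
  · have e1 : b * w * b = w := by rw [← h1.2.2, mul_assoc, h.bb, mul_one]
    have e2 := q.cb ⟨w, hwK⟩ ⟨w, hwK⟩ e1.symm
    calc π ⟨w, hwK⟩ * b' = b' * π ⟨w, hwK⟩ * b' * b' := by rw [← e2]
      _ = b' * π ⟨w, hwK⟩ * (b' * b') := by group
      _ = b' * π ⟨w, hwK⟩ := by rw [q.fr.bb, mul_one]

/-- JI (paper 3). -/
theorem ji (h3 : QdcS.{u}) : JiS.{u} := by
  intro G _ K a b c h N hN hV hn hne
  by_cases hF : ∃ f ∈ N, f ∈ Fx K a b ∧ f ≠ 1
  · obtain ⟨Q, _, K', a', b', c', π, q⟩ := exists_QD h.fr hN hV hn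
    obtain ⟨-, hlt, hfg⟩ := h3 G K N a b c h.fr h.fin Q K' a' b' c' π q
    -- `C_{K'}(V')` is finite
    have hfin' : (Fx K' a' b' : Set Q).Finite := by
      have hle : ∀ x ∈ Fx K a b, x ∈ K := fun x hx => (mem_Fx.1 hx).1
      have h1 : Finite (Fx K a b) := h.fin
      have h2 : Function.Surjective
          (fun x : Fx K a b => (⟨π ⟨x.1, hle x.1 x.2⟩, fx_map h.fr q (hle x.1 x.2) x.2⟩ :
            Fx K' a' b')) := by
        rintro ⟨x, hx⟩
        obtain ⟨k, hk, rfl⟩ := q.lift_fx h.fr hx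
        exact ⟨⟨k.1, hk⟩, rfl⟩
      have h4 : Finite (Fx K' a' b') := Finite.of_surjective _ h2
      exact h4
    have hLF : LF K' := h.min Q K' a' b' c' q.fr hfin' (hlt hF)
    -- `K'` is finite
    have hK' : Finite K' := by
      have h1 : Group.FG K' := (Group.fg_iff_subgroup_fg K').2 (hfg h.fg)
      have h2 : Finite (⊤ : Subgroup K') := hLF ⊤ (Group.fg_def.1 h1)
      exact Finite.of_equiv _ (Subgroup.topEquiv (G := K')).toEquiv
    have hran : Finite π.range := by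
      have h1 : ∀ x ∈ π.range, x ∈ K' := by
        rintro x ⟨k, hk⟩
        exact (q.ran x).2 ⟨k, hk⟩
      exact Finite.of_injective (fun x : π.range => (⟨x.1, h1 x.1 x.2⟩ : K'))
        (fun x y hxy => Subtype.ext (congrArg (fun z : K' => (z : Q)) hxy))
    have hker : π.ker = N.subgroupOf K := by
      ext k
      rw [MonoidHom.mem_ker, q.ker k, Subgroup.mem_subgroupOf]
    show (N.subgroupOf K).index ≠ 0
    rw [← hker, Subgroup.index_ker]
    exact Nat.card_pos.ne'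
  · exfalso
    push Not at hF
    apply hne
    refine h.nolf N hN hV hn ?_
    refine mq G K a b c h.fr N ⊥ hN bot_le hV ⟨?_, ?_⟩ ?_ ?_ ?_
    · intro u hu
      rw [Subgroup.mem_bot] at hu ⊢
      rw [hu, mul_one, h.fr.aa]
    · intro u hu
      rw [Subgroup.mem_bot] at hu ⊢
      rw [hu, mul_one, h.fr.bb]
    · intro n _ z hz
      rw [Subgroup.mem_bot] at hz ⊢
      rw [hz]; group
    · intro f hf hfF
      rw [Subgroup.mem_bot]
      exact hF f hf hfF
    · intro S _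
      infer_instance

end Pool.Agent.FourGp.FF.Bs
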