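import Pool.Agent.Lib.MP_fb3619_al.BS.Sd

/-!
# MP_fb3619_al, board BS, row RD1 (paper 3): from `Min0` to `MinC`
-/

set_option autoImplicit false

universe u

namespace Pool.Agent.FourGp.FF.Bs

open Pool.Agent.FourGp.H47 (Odd' inv_of_sq conj_inv_pow mul_inv_self odd_conj comm_of_inv
  mul_inv_self' comm_pow comm_inv conj_comm comm_conj)
open Pool.Agent.FourGp.H99 (LF)

section

variable {G : Type u} [Group G]

/-- A subgroup of finite index of a finitely generated group is finitely generated. -/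
theorem fg_of_rel {L K : Subgroup G} (hLK : L ≤ K) (h : L.relIndex K ≠ 0) (hK : K.FG) :
    L.FG := by
  have h1 : Group.FG K := (Group.fg_iff_subgroup_fg K).2 hK
  have h2 : (L.subgroupOf K).FiniteIndex := ⟨h⟩
  have h3 : Group.FG (L.subgroupOf K) := inferInstance
  have h4 : Group.FG L :=
    Group.fg_of_surjective (f := (Subgroup.subgroupOfEquivOfLe hLK).toMonoidHom)
      (MulEquiv.surjective _)
  exact (Group.fg_iff_subgroup_fg L).1 h4

/-- The core of `L` under `K`. -/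
def coreK (K L : Subgroup G) : Subgroup G :=
  ((L.subgroupOf K).normalCore).map K.subtype

theorem mem_coreK {K L : Subgroup G} {x : G} :
    x ∈ coreK K L ↔ x ∈ K ∧ ∀ k ∈ K, k * x * k⁻¹ ∈ L := by
  constructor
  · rintro ⟨y, hy, rfl⟩
    refine ⟨y.2, fun k hk => ?_⟩
    have h1 := hy ⟨k, hk⟩
    rw [Subgroup.mem_subgroupOf] at h1
    exact h1
  · rintro ⟨hx, h⟩
    refine ⟨⟨x, hx⟩, fun k => ?_, rfl⟩
    rw [Subgroup.mem_subgroupOf]
    exact h k k.2

theorem coreK_le {K L : Subgroup G} : coreK K L ≤ L := by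
  intro x hx
  have h1 := (mem_coreK.1 hx).2 1 K.one_mem
  rwa [one_mul, inv_one, mul_one] at h1

theorem coreK_rel {K L : Subgroup G} (h : L.relIndex K ≠ 0) : (coreK K L).relIndex K ≠ 0 := by
  have h2 : (L.subgroupOf K).FiniteIndex := ⟨h⟩
  have h3 : ((L.subgroupOf K).normalCore).FiniteIndex := inferInstance
  have e : (coreK K L).subgroupOf K = (L.subgroupOf K).normalCore := by
    ext x
    rw [Subgroup.mem_subgroupOf]
    constructor
    · rintro ⟨y, hy, e⟩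
      rwa [← Subtype.ext e]
    · intro hx
      exact ⟨x, hx, rfl⟩
  show ((coreK K L).subgroupOf K).index ≠ 0
  rw [e]
  exact h3.index_ne_zero

variable {K : Subgroup G} {a b c : G}

/-- `K` and the involutions normalise an invariant normal subgroup. -/
theorem ns_of {N : Subgroup G} (hn : ∀ k ∈ K, ∀ n ∈ N, k⁻¹ * n * k ∈ N) {k : G} (hk : k ∈ K) :
    k ∈ NS (N : Set G) := by
  intro t
  refine ⟨fun ht => hn k hk t ht, fun ht => ?_⟩
  have h1 := hn k⁻¹ (K.inv_mem hk) _ ht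
  have e : k⁻¹⁻¹ * (k⁻¹ * t * k) * k⁻¹ = t := by group
  rwa [e] at h1

theorem coreK_inv {L : Subgroup G} {z : G} (hz : z * z = 1) (hK : ∀ k ∈ K, z * k * z ∈ K)
    (hL : ∀ l ∈ L, z * l * z ∈ L) : ∀ x ∈ coreK K L, z * x * z ∈ coreK K L := by
  intro x hx
  obtain ⟨h1, h2⟩ := mem_coreK.1 hx
  refine mem_coreK.2 ⟨hK x h1, fun k hk => ?_⟩
  have h3 := hL _ (h2 (z * k * z) (hK k hk))
  have e : z * ((z * k * z) * x * (z * k * z)⁻¹) * z = k * (z * x * z) * k⁻¹ := by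
    rw [mul_inv_rev, mul_inv_rev, inv_of_sq hz]
    calc z * (z * k * z * x * (z * (k⁻¹ * z))) * z
        = (z * z) * k * z * x * z * k⁻¹ * (z * z) := by group
      _ = _ := by rw [hz]; group
  rwa [e] at h3

theorem coreK_norm {L : Subgroup G} : ∀ k ∈ K, ∀ x ∈ coreK K L, k⁻¹ * x * k ∈ coreK K L := by
  intro k hk x hx
  obtain ⟨h1, h2⟩ := mem_coreK.1 hx
  refine mem_coreK.2 ⟨K.mul_mem (K.mul_mem (K.inv_mem hk) h1) hk, fun l hl => ?_⟩
  have h3 := h2 (l * k⁻¹) (K.mul_mem hl (K.inv_mem hk))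
  have e : l * k⁻¹ * x * (l * k⁻¹)⁻¹ = l * (k⁻¹ * x * k) * l⁻¹ := by group
  rwa [e] at h3

end

/-- RD1. -/
theorem rd1 (hC : CrdS.{u}) (hJ : JiS.{u}) (hH : HerS.{u}) : Rd1S.{u} := by
  intro hno G _ K a b c h
  have hfr := h.fr
  have hKa : ∀ k ∈ K, a * k * a ∈ K := fun k hk => hfr.cjmem hfr.aa hk
  have hKb : ∀ k ∈ K, b * k * b ∈ K := fun k hk => hfr.cjmem hfr.bb hk
  -- the invariant normal subgroups of finite index
  obtain ⟨s, hs⟩ : ∃ s : Set (Subgroup G), s = {L | L ≤ K ∧ VInv a b L ∧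
    (∀ k ∈ K, ∀ n ∈ L, k⁻¹ * n * k ∈ L) ∧ L.relIndex K ≠ 0} := ⟨_, rfl⟩
  have hKs : K ∈ s := by
    rw [hs]
    refine ⟨le_rfl, ⟨hKa, hKb⟩, fun k hk n hn => K.mul_mem (K.mul_mem (K.inv_mem hk) hn) hk, ?_⟩
    rw [Subgroup.relIndex_self]
    exact one_ne_zero
  have hFs : ∀ L ∈ s, Fx K a b ≤ L := by
    intro L hL
    rw [hs] at hL
    by_contra hcon
    exact h.nlf (Fct.LF_rel hL.1 hL.2.2.2 ((hH G K a b c h).1 L hL.1 hL.2.1 hcon))
  have hF1 : Fx K a b ≠ ⊥ := by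
    intro e
    apply h.nlf
    refine mq G K a b c hfr K ⊥ le_rfl bot_le ⟨hKa, hKb⟩ ⟨?_, ?_⟩ ?_ ?_ ?_
    · intro u hu
      rw [Subgroup.mem_bot] at hu ⊢
      rw [hu, mul_one, hfr.aa]
    · intro u hu
      rw [Subgroup.mem_bot] at hu ⊢
      rw [hu, mul_one, hfr.bb]
    · intro k _ n hn
      rw [Subgroup.mem_bot] at hn ⊢
      rw [hn]; group
    · intro f _ hf
      rwa [e] at hf
    · intro S _
      infer_instance
  obtain ⟨R, hR⟩ : ∃ R : Subgroup G, R = sInf s := ⟨_, rfl⟩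
  have hmem : ∀ x, x ∈ R ↔ ∀ L ∈ s, x ∈ L := by
    intro x
    rw [hR, Subgroup.mem_sInf]
  have hRK : R ≤ K := fun x hx => (hmem x).1 hx K hKs
  have hRV : VInv a b R := by
    refine ⟨fun u hu => (hmem _).2 fun L hL => ?_, fun u hu => (hmem _).2 fun L hL => ?_⟩
    · have h1 := (hmem u).1 hu L hL
      rw [hs] at hL
      exact hL.2.1.1 u h1
    · have h1 := (hmem u).1 hu L hL
      rw [hs] at hL
      exact hL.2.1.2 u h1
  have hRn : ∀ k ∈ K, ∀ n ∈ R, k⁻¹ * n * k ∈ R := by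
    intro k hk n hn
    refine (hmem _).2 fun L hL => ?_
    have h1 := (hmem n).1 hn L hL
    rw [hs] at hL
    exact hL.2.2.1 k hk n h1
  have hR1 : R ≠ ⊥ := by
    intro e
    apply hF1
    rw [eq_bot_iff, ← e]
    intro f hf
    exact (hmem f).2 fun L hL => hFs L hL hf
  have hRi : R.relIndex K ≠ 0 := hJ G K a b c h R hRK hRV hRn hR1
  -- the frame of `R`
  obtain ⟨Q, _, K', a', b', c', ι, sd⟩ := sd G K a b c hfr R hRK hRV
  have hcard : Nat.card (Fx K' a' b') ≤ Nat.card (Fx K a b) := by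
    rw [sd.card_fx hRK]
    have : Finite (Fx K a b) := h.fin.to_subtype
    exact Subgroup.card_le_of_le inf_le_right
  have hmin : Min0 K' a' b' c' := by
    refine ⟨sd.fr, sd.fx_fin hRK h.fin, ?_, ?_, ?_, ?_⟩
    · intro hl
      exact h.nlf (Fct.LF_rel hRK hRi (sd.lf.1 hl))
    · exact sd.fgi.2 (fg_of_rel hRK hRi h.fg)
    · intro N hN _ hNn hNl
      obtain ⟨Z, hZR, hZl, hZn, hZm⟩ := hC G R
      have h1 : Z = ⊥ := by
        refine h.nolf Z (hZR.trans hRK) ⟨?_, ?_⟩ ?_ hZl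
        · intro u hu
          have h2 := hZn a (NS_invol hfr.aa hRV.1) u hu
          rwa [inv_of_sq hfr.aa] at h2
        · intro u hu
          have h2 := hZn b (NS_invol hfr.bb hRV.2) u hu
          rwa [inv_of_sq hfr.bb] at h2
        · intro k hk n hn
          exact hZn k (ns_of hRn hk) n hn
      have h2 : N.map ι ≤ Z := hZm _ (sd.le_map.1 hN) (sd.norm.1 hNn) ((sd.lf_map N).1 hNl)
      rw [h1, le_bot_iff] at h2
      exact (Subgroup.map_eq_bot_iff_of_injective N sd.inj).1 h2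
    · intro Q' _ K'' a'' b'' c'' h1 h2 h4
      exact h.min Q' K'' a'' b'' c'' h1 h2 (lt_of_lt_of_le h4 hcard)
  have hind : ∀ L : Subgroup Q, L ≤ K' → VInv a' b' L → L.relIndex K' ≠ 0 → L = K' := by
    intro L hL hV hi
    have h1 : L.map ι ≤ R := sd.le_map.1 hL
    have h2 : VInv a b (L.map ι) := (sd.vinv L).1 hV
    have h3 : (L.map ι).relIndex R ≠ 0 := by
      have e := sd.rel L K'
      rw [sd.map_eq] at e
      rwa [e]
    have h4 : (L.map ι).relIndex K ≠ 0 := Subgroup.relIndex_ne_zero_trans h3 hRi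
    have h5 : coreK K (L.map ι) ∈ s := by
      rw [hs]
      exact ⟨fun x hx => (mem_coreK.1 hx).1, ⟨coreK_inv hfr.aa hKa h2.1, coreK_inv hfr.bb hKb h2.2⟩,
        coreK_norm, coreK_rel h4⟩
    have h6 : R ≤ L.map ι := fun x hx => coreK_le ((hmem x).1 hx _ h5)
    have h7 : L.map ι = K'.map ι := by
      rw [sd.map_eq]
      exact le_antisymm h1 h6
    exact (Subgroup.map_injective sd.inj) h7
  refine hno Q K' a' b' c' ⟨hmin, ?_, hind⟩
  intro N hN hV hn
  by_cases e : N = ⊥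
  · exact Or.inl e
  · exact Or.inr (hind N hN hV (hJ Q K' a' b' c' hmin N hN hV hn e))

end Pool.Agent.FourGp.FF.Bs
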