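import Pool.Agent.Lib.MP_fb3619_al.BS.Iface
import Pool.Agent.Lib.MP_fb3619_al.H4.Abd
import Pool.Agent.Lib.MP_fb3619_al.FF.Shu
import Pool.Agent.Lib.MP_fb3619_al.FF.Tri
import Pool.Agent.Lib.MP_fb3619_al.FF.Fct

/-!
# MP_fb3619_al, board BS, row RV: the commensurator of `C_K(b)` (paper 8)
-/

set_option autoImplicit false

universe u

namespace Pool.Agent.FourGp.FF.Bs

open Pool.Agent.FourGp.H47 (Odd' inv_of_sq conj_inv_pow mul_inv_self odd_conj comm_of_inv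
  mul_inv_self' comm_pow comm_inv conj_comm comm_conj)
open Pool.Agent.FourGp.FF.Fi (cjg mem_cjg)
open Pool.Agent.FourGp.FF.Abo (Lb lb_of lb_ns ns_lb cz_ns)

theorem rv : RvS.{u} := by
  intro G _ K a b c h hF k hk hr
  -- `k` is in the stabilizer of the set of involutions with commensurable centralizers
  have hkN : k ∈ NS (Lb K b) := by
    have h1 : cjg k (Cz K b) = Cz K (k⁻¹⁻¹ * b * k⁻¹) := by
      ext g
      rw [mem_cjg, mem_Cz, mem_Cz]
      constructor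
      · rintro ⟨h2, h3⟩
        refine ⟨?_, ?_⟩
        · have h4 := h.cjk (g := k⁻¹) h2
          have e : k⁻¹⁻¹ * (k⁻¹ * g * k) * k⁻¹ = g := by group
          rwa [e] at h4
        · calc g * (k⁻¹⁻¹ * b * k⁻¹) = k * ((k⁻¹ * g * k) * b) * k⁻¹ := by group
            _ = k * (b * (k⁻¹ * g * k)) * k⁻¹ := by rw [h3]
            _ = _ := by group
      · rintro ⟨h2, h3⟩
        refine ⟨h.cjk h2, ?_⟩
        calc k⁻¹ * g * k * b = k⁻¹ * (g * (k⁻¹⁻¹ * b * k⁻¹)) * k := by group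
          _ = k⁻¹ * ((k⁻¹⁻¹ * b * k⁻¹) * g) * k := by rw [h3]
          _ = _ := by group
    rw [h1] at hr
    have h2 := lb_ns h (K.inv_mem hk) (lb_of h (K.inv_mem hk) hr)
    have h3 := (NS (Lb K b)).inv_mem h2
    rwa [inv_inv] at h3
  obtain ⟨w, s, hw, hs, e, h1, h2⟩ := h.dec (X := K) le_rfl h.bb (fun u hu => h.cjmem h.bb hu) hk
  have hwB : w ∈ Cz K b := mem_Cz.2 ⟨hw, h1⟩
  have hsN : s ∈ NS (Lb K b) := by
    have e1 : s = w⁻¹ * k := by rw [e]; group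
    rw [e1]
    exact (NS _).mul_mem ((NS _).inv_mem (cz_ns h hwB)) hkN
  have hsf : fi (Cz K b) s := by
    have h3 := (ns_lb h hsN).2.1
    obtain ⟨R, hRB, hR⟩ := cover_of_relIndex h3
    show (Subgroup.centralizer {s}).relIndex (Cz K b) ≠ 0
    refine relIndex_of_cover (R : Set G) R.finite_toSet ?_
    intro g hg
    obtain ⟨r, hr, h4⟩ := hR g hg
    refine ⟨r, hr, ?_⟩
    have c1 : Commute (g * r⁻¹) b :=
      (mem_Cz.1 ((Cz K b).mul_mem hg ((Cz K b).inv_mem (hRB r hr)))).2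
    have c2 : Commute (g * r⁻¹) (s⁻¹ * b * s) := (mem_Cz.1 h4).2
    have e1 : b * (s⁻¹ * b * s) = s * s := by
      calc b * (s⁻¹ * b * s) = (b * s⁻¹ * b) * s := by group
        _ = (b * s * b)⁻¹ * s := by rw [Abo.cj_inv h.bb]
        _ = s * s := by rw [h2]; group
    have c3 := c1.mul_right c2
    rw [e1] at c3
    obtain ⟨n, hn⟩ := h.odd s hs
    have e2 : (s * s) ^ (n + 1) = s := by
      rw [← pow_two, ← pow_mul]
      have : 2 * (n + 1) = (2 * n + 1) + 1 := by ring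
      rw [this, pow_succ, hn, one_mul]
    have c4 := c3.pow_right (n + 1)
    rw [e2] at c4
    exact Subgroup.mem_centralizer_singleton_iff.2 c4
  have hDa : ∀ u ∈ Cz K b, a * u * a ∈ Cz K b := fun u hu => h.cz_inv h.aa h.cab hu
  obtain ⟨f, u, hf, hu, e1, h3, h4⟩ := h.dec (X := Cz K b) cz_le h.aa hDa hwB
  refine ⟨f, mem_Fx.2 ⟨(mem_Cz.1 hf).1, h3, (mem_Cz.1 hf).2⟩, ?_⟩
  have e2 : f⁻¹ * k = u * s := by rw [e, e1]; group
  rw [e2]
  refine Tri.fi_mul ?_ hsf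
  exact Abo.mi_fi shu h.swap (by rwa [Fr.fx_swap]) ⟨hu, h4⟩

end Pool.Agent.FourGp.FF.Bs
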