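import Pool.Agent.Lib.MP_fb3619_al.BS.Rd0
import Pool.Agent.Lib.MP_fb3619_al.BS.Rd1
import Pool.Agent.Lib.MP_fb3619_al.BS.Crd
import Pool.Agent.Lib.MP_fb3619_al.BS.Ji
import Pool.Agent.Lib.MP_fb3619_al.BS.Her
import Pool.Agent.Lib.MP_fb3619_al.BS.Ck
import Pool.Agent.Lib.MP_fb3619_al.BS.Cor
import Pool.Agent.Lib.MP_fb3619_al.BS.Cms
import Pool.Agent.Lib.MP_fb3619_al.BS.Gen
import Pool.Agent.Lib.MP_fb3619_al.BS.Rv
import Pool.Agent.Lib.MP_fb3619_al.BS.Dis
import Pool.Agent.Lib.MP_fb3619_al.BS.Ee

/-!
# MP_fb3619_al, board BS: assembly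

Everything on the board is proved; the statements below have no hypotheses left.
-/

set_option autoImplicit false

universe u

namespace Pool.Agent.FourGp.FF.Bs

/-- Conjugacy-invariant centralizers in a minimal counterexample are locally finite. -/
theorem ck' : CkS.{u} := ck her

/-- An invariant normal subgroup different from `1` has finite index. -/
theorem ji' : JiS.{u} := ji qdc

/-- From `Min0` to `MinC`. -/
theorem rd1' : Rd1S.{u} := rd1 crd ji' her

/-- The reduction to `MinC`: to prove that every `K` without involutions and with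
finite `C_K(V)` is locally finite, it is enough to refute `MinC`. -/
theorem red' : RedS.{u} := red rd0 rd1'

end Pool.Agent.FourGp.FF.Bs
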