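import Pool.Agent.Lib.MP_fb3619_al.BS.Sd
import Pool.Agent.Lib.MP_fb3619_al.AB.Fgr

/-!
# MP_fb3619_al, board BS, row RD0 (paper 2): reduction to a minimal counterexample which is
finitely generated and has trivial locally finite radical (helper46)
-/

set_option autoImplicit false

universe u

namespace Pool.Agent.FourGp.FF.Bs

open Pool.Agent.FourGp.H99 (LF)
open Pool.Agent.FourGp.AB (closure_inv cj_cj)

/-- The finitely generated hull invariant under the four-group. -/
theorem fghull {G : Type u} [Group G] {K : Subgroup G} {a b c : G} (h : Fr K a b c)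
    {Y : Subgroup G} (hYK : Y ≤ K) (hY : Y.FG) :
    ∃ K0 : Subgroup G, K0 ≤ K ∧ Y ≤ K0 ∧ VInv a b K0 ∧ K0.FG := by
  classical
  obtain ⟨T, hT⟩ := hY
  set T' : Finset G := T ∪ T.image (fun t => a * t * a) ∪ (T.image (fun t => b * t * b) ∪
    T.image (fun t => c * t * c)) with hT'
  have hmem : ∀ x, x ∈ T' ↔ ∃ t ∈ T, x = t ∨ x = a * t * a ∨ x = b * t * b ∨ x = c * t * c := by
    intro x
    rw [hT']
    simp only [Finset.mem_union, Finset.mem_image]
    constructor
    · rintro ((hx | ⟨t, ht, rfl⟩) | (⟨t, ht, rfl⟩ | ⟨t, ht, rfl⟩))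
      · exact ⟨x, hx, Or.inl rfl⟩
      · exact ⟨t, ht, Or.inr (Or.inl rfl)⟩
      · exact ⟨t, ht, Or.inr (Or.inr (Or.inl rfl))⟩
      · exact ⟨t, ht, Or.inr (Or.inr (Or.inr rfl))⟩
    · rintro ⟨t, ht, rfl | rfl | rfl | rfl⟩
      · exact Or.inl (Or.inl ht)
      · exact Or.inl (Or.inr ⟨t, ht, rfl⟩)
      · exact Or.inr (Or.inl ⟨t, ht, rfl⟩)
      · exact Or.inr (Or.inr ⟨t, ht, rfl⟩)
  have hTK : ∀ t ∈ T, t ∈ K := fun t ht => hYK (by
    rw [← hT]; exact Subgroup.subset_closure ht)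
  have haa : ∀ t : G, a * (a * t * a) * a = t := fun t => by
    rw [cj_cj h.aa h.aa]; group
  have hbb : ∀ t : G, b * (b * t * b) * b = t := fun t => by
    rw [cj_cj h.bb h.bb]; group
  refine ⟨Subgroup.closure (T' : Set G), ?_, ?_, ⟨?_, ?_⟩, ⟨T', rfl⟩⟩
  · rw [Subgroup.closure_le]
    intro x hx
    obtain ⟨t, ht, hx'⟩ := (hmem x).1 hx
    rcases hx' with rfl | rfl | rfl | rfl
    · exact hTK _ ht
    · exact h.cjmem h.aa (hTK _ ht)
    · exact h.cjmem h.bb (hTK _ ht)
    · exact h.cjmem h.cc (hTK _ ht)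
  · rw [← hT, Subgroup.closure_le]
    intro t ht
    exact Subgroup.subset_closure ((hmem t).2 ⟨t, ht, Or.inl rfl⟩)
  · refine closure_inv h.aa ?_
    intro x hx
    obtain ⟨t, ht, hx'⟩ := (hmem x).1 hx
    refine (hmem _).2 ⟨t, ht, ?_⟩
    rcases hx' with rfl | rfl | rfl | rfl
    · exact Or.inr (Or.inl rfl)
    · exact Or.inl (haa t)
    · exact Or.inr (Or.inr (Or.inr (cj_cj h.ab h.ba t)))
    · exact Or.inr (Or.inr (Or.inl (cj_cj h.ac h.ca t)))
  · refine closure_inv h.bb ?_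
    intro x hx
    obtain ⟨t, ht, hx'⟩ := (hmem x).1 hx
    refine (hmem _).2 ⟨t, ht, ?_⟩
    rcases hx' with rfl | rfl | rfl | rfl
    · exact Or.inr (Or.inr (Or.inl rfl))
    · exact Or.inr (Or.inr (Or.inr (cj_cj h.ba h.ab t)))
    · exact Or.inl (hbb t)
    · exact Or.inr (Or.inl (cj_cj h.bc h.cb t))

/-- Row RD0. -/
theorem rd0 : Rd0S.{u} := by
  intro hno
  have key : ∀ n : ℕ, ∀ (G : Type u) [Group G] (K : Subgroup G) (a b c : G), Fr K a b c →
      (Fx K a b : Set G).Finite → Nat.card (Fx K a b) ≤ n → LF K := by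
    intro n
    induction n using Nat.strong_induction_on with
    | _ n ih =>
      intro G _ K a b c h hF hn
      refine LF_sub ?_
      intro Y hYK hYfg
      obtain ⟨K0, hK0, hYK0, hV, hfg⟩ := fghull h hYK hYfg
      obtain ⟨Q, _, K', a', b', c', ι, s⟩ := sd G K a b c h K0 hK0 hV
      have hF' : (Fx K' a' b' : Set Q).Finite := s.fx_fin hK0 hF
      have hfin : Finite (Fx K a b) := hF.to_subtype
      have hn' : Nat.card (Fx K' a' b') ≤ n := by
        rw [s.card_fx hK0]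
        refine le_trans ?_ hn
        exact Nat.card_le_card_of_injective _ (Subgroup.inclusion_injective inf_le_right)
      have hfg' : K'.FG := s.fgi.2 hfg
      have hLF : LF K' := by
        refine rad (fun G _ K a b _ => (Fx K a b : Set G).Finite ∧ K.FG ∧
          Nat.card (Fx K a b) ≤ n) ?_ ?_ Q K' a' b' c' s.fr ⟨hF', hfg', hn'⟩
        · rintro G _ K N a b c Q _ K' a' b' c' π h q ⟨hF, hfg, hn⟩
          obtain ⟨h1, -, h2⟩ := qdc G K N a b c h hF Q K' a' b' c' π q
          exact ⟨q.fx_finite h hF, h2 hfg, h1.trans hn⟩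
        · rintro G _ K a b c h hN ⟨hF, hfg, hn⟩
          by_contra hK
          refine hno G K a b c ⟨h, hF, hK, hfg, hN, ?_⟩
          intro Q _ K' a' b' c' h' hF' hlt
          exact ih _ (lt_of_lt_of_le hlt hn) Q K' a' b' c' h' hF' le_rfl
      have hLF0 : LF K0 := s.lf.1 hLF
      have hLFY : LF Y := LF_mono hYK0 hLF0
      obtain ⟨T, hT⟩ := hYfg
      have h3 : Finite (⊤ : Subgroup Y) := by
        refine hLFY ⊤ ?_
        rw [← Group.fg_def, Group.fg_iff_subgroup_fg]
        exact ⟨T, hT⟩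
      exact Finite.of_equiv _ (Subgroup.topEquiv (G := Y)).toEquiv
  intro G _ K a b c h hF
  exact key _ G K a b c h hF le_rfl

end Pool.Agent.FourGp.FF.Bs
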