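import Pool.Agent.Lib.MP_fb3619_al.BS.Iface

/-!
# MP_fb3619_al, board BS, row SD: sub-frames and the order of `C_K(V)` in quotients (paper 1)
-/

set_option autoImplicit false

universe u

namespace Pool.Agent.FourGp.FF.Bs

open Pool.Agent.FourGp.H47 (Odd' inv_of_sq conj_inv_pow mul_inv_self odd_conj comm_of_inv
  mul_inv_self' comm_pow comm_inv conj_comm comm_conj)
open Pool.Agent.FourGp.H99 (LF)

/-- SD: existence. -/
theorem sd : SdS.{u} := by
  intro G _ K a b c h L hL hV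
  set M : Subgroup G := NS (L : Set G) with hM
  have haM : a ∈ M := NS_invol h.aa hV.1
  have hbM : b ∈ M := NS_invol h.bb hV.2
  have hcM : c ∈ M := by
    rw [← h.ab]
    exact M.mul_mem haM hbM
  have hLM : L ≤ M := by
    intro k hk t
    refine ⟨fun ht => L.mul_mem (L.mul_mem (L.inv_mem hk) ht) hk, fun ht => ?_⟩
    have h1 := L.mul_mem (L.mul_mem hk ht) (L.inv_mem hk)
    have e : k * (k⁻¹ * t * k) * k⁻¹ = t := by group
    rwa [e] at h1
  have hfr : Fr (L.subgroupOf M) (⟨a, haM⟩ : M) ⟨b, hbM⟩ ⟨c, hcM⟩ := by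
    refine ⟨⟨?_⟩, ?_, Subtype.ext h.aa, Subtype.ext h.bb, Subtype.ext h.cc, Subtype.ext h.ab,
      fun hm => h.na (hL (Subgroup.mem_subgroupOf.1 hm)),
      fun hm => h.nb (hL (Subgroup.mem_subgroupOf.1 hm)),
      fun hm => h.nc (hL (Subgroup.mem_subgroupOf.1 hm))⟩
    · intro n hn g
      rw [Subgroup.mem_subgroupOf] at hn ⊢
      have h1 := (M.inv_mem g.2 (n : G)).1 hn
      have e : ((g : G)⁻¹)⁻¹ * n * (g : G)⁻¹ = ((g * n * g⁻¹ : M) : G) := by
        push_cast; group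
      rwa [e] at h1
    · intro k hk
      obtain ⟨n, hn⟩ := h.odd _ (hL (Subgroup.mem_subgroupOf.1 hk))
      exact ⟨n, Subtype.ext (by simpa using hn)⟩
  refine ⟨M, inferInstance, L.subgroupOf M, ⟨a, haM⟩, ⟨b, hbM⟩, ⟨c, hcM⟩, M.subtype, ?_⟩
  exact ⟨hfr, M.subtype_injective, fun q => Subgroup.mem_subgroupOf,
    fun l hl => ⟨⟨l, hLM hl⟩, rfl⟩, rfl, rfl, rfl⟩

section

variable {G : Type u} [Group G] {K L : Subgroup G} {a b c : G} {Q : Type u} [Group Q]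
  {K' : Subgroup Q} {a' b' c' : Q} {ι : Q →* G}

theorem SD.map_eq (s : SD L a b c K' a' b' c' ι) : K'.map ι = L := by
  ext x
  constructor
  · rintro ⟨q, hq, rfl⟩
    exact (s.mem q).1 hq
  · intro hx
    obtain ⟨q, rfl⟩ := s.sur x hx
    exact ⟨q, (s.mem q).2 hx, rfl⟩

/-- `K'` and `L` are isomorphic. -/
noncomputable def SD.equiv (s : SD L a b c K' a' b' c' ι) : K' ≃* L :=
  (K'.equivMapOfInjective ι s.inj).trans (MulEquiv.subgroupCongr s.map_eq)

theorem SD.lf (s : SD L a b c K' a' b' c' ι) : LF K' ↔ LF L :=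
  ⟨fun h => LF_of_inj s.equiv.symm.toMonoidHom (MulEquiv.injective _) h,
    fun h => LF_of_inj s.equiv.toMonoidHom (MulEquiv.injective _) h⟩

theorem SD.fgi (s : SD L a b c K' a' b' c' ι) : K'.FG ↔ L.FG := by
  rw [← Group.fg_iff_subgroup_fg, ← Group.fg_iff_subgroup_fg]
  constructor
  · intro h
    exact Group.fg_of_surjective (f := s.equiv.toMonoidHom) (MulEquiv.surjective _)
  · intro h
    exact Group.fg_of_surjective (f := s.equiv.symm.toMonoidHom) (MulEquiv.surjective _)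

theorem SD.comm (s : SD L a b c K' a' b' c' ι) {q x : Q} {y : G} (e : ι x = y) :
    q * x = x * q ↔ ι q * y = y * ι q := by
  rw [← e, ← map_mul, ← map_mul]
  exact ⟨fun h => congrArg ι h, fun h => s.inj h⟩

theorem SD.mem_fx (s : SD L a b c K' a' b' c' ι) (hL : L ≤ K) (q : Q) :
    q ∈ Fx K' a' b' ↔ ι q ∈ L ∧ ι q ∈ Fx K a b := by
  rw [mem_Fx, mem_Fx, s.mem q, s.comm s.ea, s.comm s.eb]
  constructor
  · rintro ⟨h1, h2, h3⟩
    exact ⟨h1, hL h1, h2, h3⟩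
  · rintro ⟨h1, -, h2, h3⟩
    exact ⟨h1, h2, h3⟩

theorem SD.fx_map (s : SD L a b c K' a' b' c' ι) (hL : L ≤ K) :
    (Fx K' a' b').map ι = L ⊓ Fx K a b := by
  ext x
  constructor
  · rintro ⟨q, hq, rfl⟩
    exact (s.mem_fx hL q).1 hq
  · intro hx
    obtain ⟨q, rfl⟩ := s.sur x hx.1
    exact ⟨q, (s.mem_fx hL q).2 hx, rfl⟩

theorem SD.card_fx (s : SD L a b c K' a' b' c' ι) (hL : L ≤ K) :
    Nat.card (Fx K' a' b') = Nat.card (L ⊓ Fx K a b : Subgroup G) := by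
  rw [← s.fx_map hL]
  exact Nat.card_congr ((Fx K' a' b').equivMapOfInjective ι s.inj).toEquiv

theorem SD.fx_fin (s : SD L a b c K' a' b' c' ι) (hL : L ≤ K)
    (hF : (Fx K a b : Set G).Finite) : (Fx K' a' b' : Set Q).Finite := by
  refine Set.Finite.of_finite_image (f := ι) (hF.subset ?_) s.inj.injOn
  rintro _ ⟨q, hq, rfl⟩
  exact ((s.mem_fx hL q).1 hq).2

theorem SD.vinv (s : SD L a b c K' a' b' c' ι) (Z : Subgroup Q) :
    VInv a' b' Z ↔ VInv a b (Z.map ι) := by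
  constructor
  · rintro ⟨h1, h2⟩
    refine ⟨?_, ?_⟩
    · rintro _ ⟨q, hq, rfl⟩
      exact ⟨a' * q * a', h1 q hq, by rw [map_mul, map_mul, s.ea]⟩
    · rintro _ ⟨q, hq, rfl⟩
      exact ⟨b' * q * b', h2 q hq, by rw [map_mul, map_mul, s.eb]⟩
  · rintro ⟨h1, h2⟩
    refine ⟨fun q hq => ?_, fun q hq => ?_⟩
    · obtain ⟨r, hr, e⟩ := h1 (ι q) ⟨q, hq, rfl⟩
      rw [← s.ea, ← map_mul, ← map_mul] at e
      rw [← s.inj e]
      exact hr
    · obtain ⟨r, hr, e⟩ := h2 (ι q) ⟨q, hq, rfl⟩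
      rw [← s.eb, ← map_mul, ← map_mul] at e
      rw [← s.inj e]
      exact hr

/-- Normality. -/
theorem SD.norm (s : SD L a b c K' a' b' c' ι) {Z : Subgroup Q} :
    (∀ k ∈ K', ∀ n ∈ Z, k⁻¹ * n * k ∈ Z) ↔
      ∀ k ∈ L, ∀ n ∈ Z.map ι, k⁻¹ * n * k ∈ Z.map ι := by
  constructor
  · rintro h k hk _ ⟨n, hn, rfl⟩
    obtain ⟨q, rfl⟩ := s.sur k hk
    exact ⟨q⁻¹ * n * q, h q ((s.mem q).2 hk) n hn, by rw [map_mul, map_mul, map_inv]⟩
  · intro h k hk n hn
    obtain ⟨r, hr, e⟩ := h (ι k) ((s.mem k).1 hk) (ι n) ⟨n, hn, rfl⟩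
    rw [← map_inv, ← map_mul, ← map_mul] at e
    rw [← s.inj e]
    exact hr

theorem SD.lf_map (s : SD L a b c K' a' b' c' ι) (Z : Subgroup Q) : LF Z ↔ LF (Z.map ι) :=
  ⟨fun h => LF_of_inj (Z.equivMapOfInjective ι s.inj).symm.toMonoidHom (MulEquiv.injective _) h,
    fun h => LF_of_inj (Z.equivMapOfInjective ι s.inj).toMonoidHom (MulEquiv.injective _) h⟩

theorem SD.rel (s : SD L a b c K' a' b' c' ι) (Z Y : Subgroup Q) :
    (Z.map ι).relIndex (Y.map ι) = Z.relIndex Y := by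
  have h1 := Subgroup.relIndex_comap (Z.map ι) ι Y
  rw [Subgroup.comap_map_eq_self_of_injective s.inj] at h1
  exact h1.symm

theorem SD.le_map {Z : Subgroup Q} (s : SD L a b c K' a' b' c' ι) :
    Z ≤ K' ↔ Z.map ι ≤ L := by
  rw [← s.map_eq, Subgroup.map_le_map_iff_of_injective s.inj]

/-- A subgroup of `L` is an image. -/
theorem SD.comap_map (s : SD L a b c K' a' b' c' ι) {N : Subgroup G} (hN : N ≤ L) :
    (N.comap ι).map ι = N := by
  ext x
  constructor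
  · rintro ⟨q, hq, rfl⟩
    exact hq
  · intro hx
    obtain ⟨q, rfl⟩ := s.sur x (hN hx)
    exact ⟨q, hx, rfl⟩

end

/-- SDF. -/
theorem sdf : SdfS.{u} := by
  intro G _ K a b c h L hL hV Q _ K' a' b' c' ι s
  exact ⟨s.lf, s.fgi, s.mem_fx hL, s.card_fx hL, fun Z _ => s.vinv Z, s.rel⟩

/-- QDC. -/
theorem qdc : QdcS.{u} := by
  intro G _ K N a b c h hF Q _ K' a' b' c' π q
  have hle : Fx K a b ≤ K := fun x hx => (mem_Fx.1 hx).1
  have hmap : ∀ w (hwK : w ∈ K), w ∈ Fx K a b → π ⟨w, hwK⟩ ∈ Fx K' a' b' := by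
    intro w hwK hw
    have h1 := mem_Fx.1 hw
    refine mem_Fx.2 ⟨(q.ran _).2 ⟨_, rfl⟩, ?_, ?_⟩
    · have e1 : a * w * a = w := by rw [← h1.2.1, mul_assoc, h.aa, mul_one]
      have e2 := q.ca ⟨w, hwK⟩ ⟨w, hwK⟩ e1.symm
      calc π ⟨w, hwK⟩ * a' = a' * π ⟨w, hwK⟩ * a' * a' := by rw [← e2]
        _ = a' * π ⟨w, hwK⟩ * (a' * a') := by group
        _ = a' * π ⟨w, hwK⟩ := by rw [q.fr.aa, mul_one]
    · have e1 : b * w * b = w := by rw [← h1.2.2, mul_assoc, h.bb, mul_one]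
      have e2 := q.cb ⟨w, hwK⟩ ⟨w, hwK⟩ e1.symm
      calc π ⟨w, hwK⟩ * b' = b' * π ⟨w, hwK⟩ * b' * b' := by rw [← e2]
        _ = b' * π ⟨w, hwK⟩ * (b' * b') := by group
        _ = b' * π ⟨w, hwK⟩ := by rw [q.fr.bb, mul_one]
  let f : Fx K a b →* Fx K' a' b' :=
    (π.comp (Subgroup.inclusion hle)).codRestrict (Fx K' a' b')
      (fun x => hmap x.1 (hle x.2) x.2)
  have hf : Function.Surjective f := by
    rintro ⟨x, hx⟩
    obtain ⟨k, hk, rfl⟩ := q.lift_fx h hx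
    exact ⟨⟨k, hk⟩, rfl⟩
  have hfin : Finite (Fx K a b) := hF.to_subtype
  have hfin' : Finite (Fx K' a' b') := Finite.of_surjective f hf
  refine ⟨Nat.card_le_card_of_surjective f hf, ?_, ?_⟩
  · rintro ⟨e, heN, he, he1⟩
    refine lt_of_le_of_ne (Nat.card_le_card_of_surjective f hf) fun hcard => ?_
    have hinj : Function.Injective f := by
      have hb := (Nat.bijective_iff_surjective_and_card f).2 ⟨hf, hcard.symm⟩
      exact hb.1
    have h1 : f ⟨e, he⟩ = 1 := by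
      apply Subtype.ext
      exact (q.ker ⟨e, hle he⟩).2 heN
    have h2 : (⟨e, he⟩ : Fx K a b) = 1 := hinj (by rw [h1, map_one])
    exact he1 (congrArg Subtype.val h2)
  · intro hfg
    have e : K' = π.range := by
      ext x
      exact q.ran x
    rw [e]
    have h1 : Group.FG K := (Group.fg_iff_subgroup_fg K).2 hfg
    have h2 : Group.FG π.range := inferInstance
    exact (Group.fg_iff_subgroup_fg _).1 h2

end Pool.Agent.FourGp.FF.Bs
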